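import Mathlib

/-!
# Chow groups, Chow-Kuenneth decompositions and Murre's conjecture (B)

The setting for `SecondHalfKimura` and `MiddleDegree` (problem MP_d6e134_ag). A `ChowTheory` is a
class `V` of connected smooth projective varieties that is closed under products and hyperplane
sections, with its correspondences of degree 0 modulo rational equivalence (rational coefficients)
acting on Chow groups and on cohomology, such that homological and numerical equivalence agree on
them (for example all complex varieties for which the Lefschetz standard conjecture holds). The laws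
are the standard ones: functoriality, Kuenneth, Poincare duality, transposes, partial traces,
permutations of the factors, weak Lefschetz.

Main steps of the proofs:

* `homogeneous_eq_zero`: if `e` is a phantom inside `h^a(X)`, then `e × π^b` can be moved from degree
  `a + b` to any other degree `m`, which gives another Chow-Kuenneth decomposition of `X × X`. If
  the projector of degree `m` acts as zero on `CH^n(X × X)` for all decompositions (`n = dim X`),
  then `(e × 1)_* Δ = ᵗe` is zero.
* `alt_eq_zero'`: so the top exterior (symmetric) power of `h^j(X)`, which is a homogeneous phantom,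
  is zero; `kills_of_alt`: by the trace argument of Kimura and the theorem of Nagata and Higman,
  products of many homologically trivial endomorphisms of `h^j(X)` are zero.
* `regular`: since homological and numerical equivalence agree, each correspondence is regular
  modulo homologically trivial ones (Jannsen); so the Kuenneth projectors of degree `j ≠ dim X` of
  `X` factor through a hyperplane section, modulo homological equivalence, and they can be lifted to
  orthogonal idempotents (`lift_idem`, `lift_seq`) as the section is finite dimensional by induction;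
  the middle one is the complement (`good_variety`).
* `vanish_induction`: the induction on the dimension for vanishing of `π^j` on `CH^i(X)`.
* `exists_zeroVanishes`: any decomposition can be changed so that `π^0` factors through a point; so
  if all decompositions are conjugate, `π^0` acts as zero on `CH^i(X)`, `i > 0`, for all of them.
* `chowLefschetz_of_murre`, `middle_of_chowLefschetz`: the restriction to a hyperplane section `Y`
  is invertible in degrees `j < dim Y`, up to nilpotent correspondences.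
-/

open Finset CategoryTheory

namespace Pool.Agent.H72.CKTheory

/-- The varieties with their correspondences of degree 0, Chow groups and cohomology. -/
structure ChowData where
  /-- the varieties -/
  V : Type
  /-- a morphism `X ⟶ Y` is a correspondence in `CH^(dim X) (X × Y)` -/
  [cat : SmallCategory V]
  [pre : Preadditive V]
  [lin : Linear ℚ V]
  /-- the product of two varieties -/
  prod : V → V → V
  /-- the dimension -/
  dim : V → ℕ
  /-- the Chow group of codimension `i` cycles -/
  CH : V → ℕ → Type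
  /-- cohomology -/
  H : V → ℕ → Type
  [chGrp : ∀ X i, AddCommGroup (CH X i)]
  [hGrp : ∀ X i, AddCommGroup (H X i)]
  [hRat : ∀ X i, Module ℚ (H X i)]
  [hFin : ∀ X i, Module.Finite ℚ (H X i)]
  /-- the action of correspondences on Chow groups -/
  chMap : ∀ {X Y : V}, (X ⟶ Y) → ∀ i, CH X i →+ CH Y i
  /-- the action of correspondences on cohomology -/
  hMap : ∀ {X Y : V}, (X ⟶ Y) → ∀ j, H X j →ₗ[ℚ] H Y j
  /-- the morphism is the restriction to a smooth hyperplane section (to a point, if `X` is a curve) -/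
  hyp : ∀ {X Y : V}, (X ⟶ Y) → Prop

attribute [instance] ChowData.cat ChowData.pre ChowData.lin ChowData.chGrp ChowData.hGrp
  ChowData.hRat ChowData.hFin

namespace ChowData

variable (D : ChowData)

/-- `f_* z` for a cycle class `z` -/
def ch {X Y : D.V} (f : X ⟶ Y) (i : ℕ) (z : D.CH X i) : D.CH Y i := D.chMap f i z

/-- `f_* x` for a cohomology class `x` -/
def ho {X Y : D.V} (f : X ⟶ Y) (j : ℕ) (x : D.H X j) : D.H Y j := D.hMap f j x

/-- the trace in degree `j` -/
noncomputable def trDeg {X : D.V} (f : X ⟶ X) (j : ℕ) : ℚ :=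
  LinearMap.trace ℚ (D.H X j) (D.hMap f j)

/-- the trace: the alternating sum of the traces in cohomology, which is the degree of the
intersection with the diagonal -/
noncomputable def trace {X : D.V} (f : X ⟶ X) : ℚ :=
  ∑ j ∈ range (2 * D.dim X + 1), (-1 : ℚ) ^ j * D.trDeg f j

end ChowData

/-- Correspondences act functorially and additively on Chow groups. -/
structure ChLaws (D : ChowData) : Prop where
  id : ∀ (X : D.V) i (z : D.CH X i), D.ch (𝟙 X) i z = z
  comp : ∀ {X Y Z : D.V} (f : X ⟶ Y) (g : Y ⟶ Z) i (z : D.CH X i),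
    D.ch (f ≫ g) i z = D.ch g i (D.ch f i z)
  add : ∀ {X Y : D.V} (f g : X ⟶ Y) i (z : D.CH X i), D.ch (f + g) i z = D.ch f i z + D.ch g i z
  top : ∀ (X : D.V) i, D.dim X < i → ∀ z : D.CH X i, z = 0

/-- Correspondences act functorially and additively on cohomology. -/
structure HLaws (D : ChowData) : Prop where
  id : ∀ (X : D.V) j (x : D.H X j), D.ho (𝟙 X) j x = x
  comp : ∀ {X Y Z : D.V} (f : X ⟶ Y) (g : Y ⟶ Z) j (x : D.H X j),
    D.ho (f ≫ g) j x = D.ho g j (D.ho f j x)
  add : ∀ {X Y : D.V} (f g : X ⟶ Y) j (x : D.H X j), D.ho (f + g) j x = D.ho f j x + D.ho g j x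

/-- Homological and numerical equivalence agree on correspondences; hyperplane sections exist and
satisfy the weak Lefschetz theorem. -/
structure LefLaws (D : ChowData) : Prop where
  homNum : ∀ {X Y : D.V} (f : X ⟶ Y), (∀ g : Y ⟶ X, D.trace (f ≫ g) = 0) →
    ∀ j (x : D.H X j), D.ho f j x = 0
  exists_hyp : ∀ X, 0 < D.dim X → ∃ Y, ∃ f : X ⟶ Y, D.hyp f
  dim_hyp : ∀ {X Y : D.V} (f : X ⟶ Y), D.hyp f → D.dim Y + 1 = D.dim X
  inj : ∀ {X Y : D.V} (f : X ⟶ Y), D.hyp f → ∀ j, j < D.dim X → Function.Injective (D.ho f j)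
  surj : ∀ {X Y : D.V} (f : X ⟶ Y), D.hyp f → ∀ j, j < D.dim Y → Function.Surjective (D.ho f j)

/-- A variety of dimension 0 is a point; and an idempotent that acts as zero on `H^j(X)` for all
`j ≤ 2 i`, `i = 0` or `1`, acts as zero on `CH^i(X)`: on `CH^0(X) = ℚ`, and on `CH^1(X)`, which is an
extension of a part of `H^2(X)` by the points of the Picard variety, determined by `H^1(X)`. -/
structure LowLaws (D : ChowData) : Prop where
  point : ∀ X, D.dim X = 0 → ∀ a : X ⟶ X, (∀ j (x : D.H X j), D.ho a j x = 0) → a = 0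
  low : ∀ X (p : X ⟶ X) i, i ≤ 1 → p ≫ p = p → (∀ j, j ≤ 2 * i → ∀ x : D.H X j, D.ho p j x = 0) →
    ∀ z : D.CH X i, D.ch p i z = 0

/-- The operations on correspondences, and the exterior product and the pairing in cohomology. -/
structure Maps (D : ChowData) where
  /-- an endomorphism of `X` is a cycle class of codimension `dim X` on `X × X` -/
  cyc : ∀ X : D.V, End X ≃+ D.CH (D.prod X X) (D.dim X)
  /-- the transpose -/
  tr : ∀ X : D.V, End X → End X
  /-- the product `a × b` of correspondences -/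
  ext : ∀ X Y : D.V, End X → End Y → End (D.prod X Y)
  /-- the exterior product in cohomology -/
  kun : ∀ (X Y : D.V) i j, D.H X i →ₗ[ℚ] D.H Y j →ₗ[ℚ] D.H (D.prod X Y) (i + j)
  /-- the Poincare pairing (`0` unless the degrees add up to `2 dim X`) -/
  pair : ∀ (X : D.V) i j, D.H X i → D.H X j → ℚ
  /-- the action of the transpose of a correspondence `Y ⟶ X`, `dim Y + 1 = dim X` -/
  pull : ∀ {X Y : D.V}, (Y ⟶ X) → ∀ i, D.CH X (i + 1) → D.CH Y i
  /-- the action of the transpose of a correspondence `X ⟶ Y`, `dim Y + 1 = dim X` -/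
  push : ∀ {X Y : D.V}, (X ⟶ Y) → ∀ i, D.CH Y i →+ D.CH X (i + 1)
  /-- the trace over the second factor -/
  ptr : ∀ X Y : D.V, End (D.prod X Y) →+ End X

section laws

variable {D : ChowData} (M : Maps D)

/-- the exterior product of two classes -/
def Maps.cup (X Y : D.V) (i j : ℕ) (x : D.H X i) (y : D.H Y j) : D.H (D.prod X Y) (i + j) :=
  M.kun X Y i j x y

/-- the trace over the second factor -/
def Maps.pt (X Y : D.V) (a : End (D.prod X Y)) : End X := M.ptr X Y a

/-- The laws for the transpose. -/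
structure TrLaws : Prop where
  dim_prod : ∀ X Y, D.dim (D.prod X Y) = D.dim X + D.dim Y
  tr_add : ∀ (X : D.V) (a b : End X), M.tr X (a + b) = M.tr X a + M.tr X b
  tr_mul : ∀ (X : D.V) (a b : End X), M.tr X (a * b) = M.tr X b * M.tr X a
  tr_tr : ∀ (X : D.V) (a : End X), M.tr X (M.tr X a) = a

/-- `ᵗ(u ∘ ρ ∘ v) = ᵗv ∘ ᵗρ ∘ ᵗu` on Chow groups, for `v : X ⟶ Y` and `u : Y ⟶ X` with
`dim Y + 1 = dim X` -/
structure TrFactor : Prop where
  succ : ∀ {X Y : D.V} (v : X ⟶ Y) (ρ : Y ⟶ Y) (u : Y ⟶ X) i (z : D.CH X (i + 1)),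
    D.dim Y + 1 = D.dim X →
      D.ch (M.tr X (v ≫ ρ ≫ u)) (i + 1) z = M.push v i (D.ch (M.tr Y ρ) i (M.pull u i z))
  zero : ∀ {X Y : D.V} (v : X ⟶ Y) (u : Y ⟶ X) (z : D.CH X 0),
    D.dim Y + 1 = D.dim X → D.ch (M.tr X (v ≫ u)) 0 z = 0

/-- `(a × b)_* γ = b ∘ γ ∘ ᵗa` -/
def ExtCyc : Prop := ∀ (X : D.V) (a b c : End X),
  D.ch (M.ext X X a b) (D.dim X) (M.cyc X c) = M.cyc X (b * c * M.tr X a)

/-- The product of correspondences is biadditive. -/
structure ExtAdd : Prop where
  left : ∀ (X Y : D.V) (a a' : End X) (b : End Y),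
    M.ext X Y (a + a') b = M.ext X Y a b + M.ext X Y a' b
  right : ∀ (X Y : D.V) (a : End X) (b b' : End Y),
    M.ext X Y a (b + b') = M.ext X Y a b + M.ext X Y a b'

/-- The product of correspondences is multiplicative. -/
structure ExtMul : Prop where
  mul : ∀ (X Y : D.V) (a a' : End X) (b b' : End Y),
    M.ext X Y (a * a') (b * b') = M.ext X Y a b * M.ext X Y a' b'
  one : ∀ X Y : D.V, M.ext X Y 1 1 = 1

/-- `(a × b)_* (x × y) = a_* x × b_* y` -/
def KunAct : Prop :=
  ∀ (X Y : D.V) i j (a : End X) (b : End Y) (x : D.H X i) (y : D.H Y j),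
    D.ho (M.ext X Y a b) (i + j) (M.cup X Y i j x y) = M.cup X Y i j (D.ho a i x) (D.ho b j y)

/-- Kuenneth: the exterior products generate the cohomology of the product. -/
def KunSpan : Prop :=
  ∀ (X Y : D.V) (P : ∀ m, D.H (D.prod X Y) m → Prop), (∀ m, P m 0) →
    (∀ m x y, P m x → P m y → P m (x + y)) →
    (∀ i j x y, P (i + j) (M.cup X Y i j x y)) → ∀ m z, P m z

/-- The pairing is biadditive, and it is `0` unless the degrees add up to `2 dim X`. -/
structure PairAdd : Prop where
  left : ∀ X i j (x x' : D.H X i) (y : D.H X j),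
    M.pair X i j (x + x') y = M.pair X i j x y + M.pair X i j x' y
  right : ∀ X i j (x : D.H X i) (y y' : D.H X j),
    M.pair X i j x (y + y') = M.pair X i j x y + M.pair X i j x y'
  deg : ∀ X i j (x : D.H X i) (y : D.H X j), i + j ≠ 2 * D.dim X → M.pair X i j x y = 0

/-- the transpose is the adjoint for the pairing -/
def PairAct : Prop :=
  ∀ (X : D.V) i j (a : End X) (x : D.H X i) (y : D.H X j),
    M.pair X i j (D.ho a i x) y = M.pair X i j x (D.ho (M.tr X a) j y)

/-- Poincare duality -/
def PairNondeg : Prop :=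
  ∀ X j (y : D.H X j), (∀ i x, M.pair X i j x y = 0) → y = 0

/-- The rules for the trace over the second factor. -/
structure PtrLaws : Prop where
  mul : ∀ (Y X : D.V) (c : End Y) (b : End (D.prod Y X)),
    M.pt Y X (M.ext Y X c 1 * b) = c * M.pt Y X b
  ext : ∀ (Y X : D.V) (a : End Y) (b : End X), M.pt Y X (M.ext Y X a b) = D.trace b • a

/-- the power `X^(n+1)` -/
def pw (D : ChowData) (X : D.V) : ℕ → D.V
  | 0 => X
  | n + 1 => D.prod (pw D X n) X

/-- the product `a_0 × ... × a_n` of self-correspondences of `X` -/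
def extPow (X : D.V) : (n : ℕ) → (Fin (n + 1) → End X) → End (pw D X n)
  | 0, a => a 0
  | n + 1, a => M.ext (pw D X n) X (extPow X n fun i => a i.castSucc) (a (Fin.last (n + 1)))

/-- `(n+1) d` -/
def degPow (d : ℕ) : ℕ → ℕ
  | 0 => d
  | n + 1 => degPow d n + d

/-- the exterior product `x_0 × ... × x_n` of classes in `H^d(X)` -/
def kunPow (X : D.V) (d : ℕ) : (n : ℕ) → (Fin (n + 1) → D.H X d) → D.H (pw D X n) (degPow d n)
  | 0, x => x 0
  | n + 1, x =>
    M.cup (pw D X n) X (degPow d n) d (kunPow X d n fun i => x i.castSucc) (x (Fin.last (n + 1)))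

/-- The permutations of the factors. -/
structure Perms (D : ChowData) where
  /-- the graph of the permutation of the factors of `X^(n+1)` -/
  perm : ∀ (X : D.V) n, Equiv.Perm (Fin (n + 1)) →* End (pw D X n)

/-- the permutation `σ` of the factors of `X^(n+1)` -/
def Perms.op (p : Perms D) (X : D.V) (n : ℕ) (σ : Equiv.Perm (Fin (n + 1))) : End (pw D X n) :=
  p.perm X n σ

/-- `σ ∘ (a_0 × ... × a_n) = (a_{σ⁻¹ 0} × ... × a_{σ⁻¹ n}) ∘ σ` -/
def PermExt (p : Perms D) : Prop :=
  ∀ (X : D.V) n (σ : Equiv.Perm (Fin (n + 1))) (a : Fin (n + 1) → End X),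
    p.op X n σ * extPow M X n a = extPow M X n (fun i => a (σ⁻¹ i)) * p.op X n σ

/-- a permutation that fixes the last factor is a product -/
def PermSucc (p : Perms D) : Prop :=
  ∀ (X : D.V) n (σ : Equiv.Perm (Fin (n + 1))) (σ' : Equiv.Perm (Fin (n + 2))),
    (∀ i, σ' i.castSucc = (σ i).castSucc) →
      p.op X (n + 1) σ' = M.ext (pw D X n) X (p.op X n σ) 1

/-- permutations act on exterior products of classes of degree `d` by permuting them, with the sign
`sgn(σ)^d` -/
def PermKun (p : Perms D) : Prop :=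
  ∀ (X : D.V) d n (σ : Equiv.Perm (Fin (n + 1))) (x : Fin (n + 1) → D.H X d),
    D.ho (p.op X n σ) (degPow d n) (kunPow M X d n x)
      = (Equiv.Perm.sign σ : ℤ) ^ d • kunPow M X d n (fun i => x (σ⁻¹ i))

/-- the trace over the last factor of `(j n+1) ∘ (a_0 × ... × a_{n+1})` is
`a_0 × ... × a_{n+1} a_j × ... × a_n` -/
def PtrSwap (p : Perms D) : Prop :=
  ∀ (X : D.V) n (j : Fin (n + 1)) (a : Fin (n + 2) → End X),
    M.pt (pw D X n) X (p.op X (n + 1) (Equiv.swap j.castSucc (Fin.last (n + 1))) *
        extPow M X (n + 1) a)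
      = extPow M X n (Function.update (fun i => a i.castSucc) j
          (a (Fin.last (n + 1)) * a j.castSucc))

end laws

/-- A class `V` of connected smooth projective varieties, closed under products and hyperplane
sections, on which homological and numerical equivalence of correspondences agree. -/
structure ChowTheory extends ChowData where
  chLaws : ChLaws toChowData
  hLaws : HLaws toChowData
  lefLaws : LefLaws toChowData
  lowLaws : LowLaws toChowData
  maps : Maps toChowData
  trLaws : TrLaws maps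
  trFactor : TrFactor maps
  extCyc : ExtCyc maps
  extAdd : ExtAdd maps
  extMul : ExtMul maps
  kunAct : KunAct maps
  kunSpan : KunSpan maps
  pairAdd : PairAdd maps
  pairAct : PairAct maps
  pairNondeg : PairNondeg maps
  ptrLaws : PtrLaws maps
  perms : Perms toChowData
  permExt : PermExt maps perms
  permSucc : PermSucc maps perms
  permKun : PermKun maps perms
  ptrSwap : PtrSwap maps perms

variable (T : ChowTheory)

/-- `π 0, ..., π (2 dim X)` is a Chow-Kuenneth decomposition of `X` (and `π i = 0` beyond). -/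
structure IsCK (X : T.V) (π : ℕ → End X) : Prop where
  idem : ∀ i, π i * π i = π i
  orth : ∀ i j, i ≠ j → π i * π j = 0
  sum : ∑ i ∈ range (2 * T.dim X + 1), π i = 1
  top : ∀ i, 2 * T.dim X < i → π i = 0
  act : ∀ i (x : T.H X i), T.ho (π i) i x = x
  act_ne : ∀ i j (x : T.H X j), j ≠ i → T.ho (π i) j x = 0

/-- `F^k CH^i(X)` for the decomposition `π`: the image of `π^{2i-k} + ... + π^0`, and `0` if
`2i - k < 0`. -/
def F {X : T.V} (π : ℕ → End X) (k i : ℕ) : Set (T.CH X i) :=
  if k ≤ 2 * i then Set.range fun w : T.CH X i => T.ch (∑ m ∈ range (2 * i - k + 1), π m) i w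
  else {0}

/-- the first half of the conclusion of Murre's conjecture (B): `F^0 CH^i(X) = CH^i(X)` -/
def FirstHalf {X : T.V} (π : ℕ → End X) : Prop := ∀ i, F T π 0 i = Set.univ

/-- the second half of the conclusion of Murre's conjecture (B): `F^(i+1) CH^i(X) = 0` -/
def SecondHalf {X : T.V} (π : ℕ → End X) : Prop := ∀ i, F T π (i + 1) i = {0}

/-- the conclusion of Murre's conjecture (B) for the decomposition `π` of `X` -/
def Murre {X : T.V} (π : ℕ → End X) : Prop :=
  ∀ i, F T π 0 i = Set.univ ∧ F T π (i + 1) i = {0}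

/-- `π^0` acts as zero on `CH^i(X)` for all `i > 0` -/
def ZeroVanishes {X : T.V} (π : ℕ → End X) : Prop :=
  ∀ i, 0 < i → ∀ z : T.CH X i, T.ch (π 0) i z = 0

/-- `π^(2n)` acts as zero on `CH^i(X)` for all `i < n`, `n = dim X` -/
def TopVanishes {X : T.V} (π : ℕ → End X) : Prop :=
  ∀ i, i < T.dim X → ∀ z : T.CH X i, T.ch (π (2 * T.dim X)) i z = 0

/-- `π^n` acts as zero on `CH^i(X)` for all `i` with `2 ≤ i < n/2`, `n = dim X` -/
def MiddleVanishes {X : T.V} (π : ℕ → End X) : Prop :=
  ∀ i, 2 ≤ i → 2 * i < T.dim X → ∀ z : T.CH X i, T.ch (π (T.dim X)) i z = 0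

/-- if `dim X = 2 i + 1` with `i ≥ 2`, then `π^(2i+1)` acts as zero on `CH^i(X)` -/
def CentreVanishes {X : T.V} (π : ℕ → End X) : Prop :=
  ∀ i, 2 ≤ i → 2 * i + 1 = T.dim X → ∀ z : T.CH X i, T.ch (π (T.dim X)) i z = 0

/-- the restriction `CH^i(X) → CH^i(Y)` to a hyperplane section is injective if
`2 ≤ i < (dim Y)/2` -/
def ChowLefschetz : Prop :=
  ∀ {X Y : T.V} (f : X ⟶ Y), T.hyp f → ∀ i, 2 ≤ i → 2 * i < T.dim Y → Function.Injective (T.ch f i)

variable {T}

/-- `a` is homologically trivial -/
def HomTrivial {X Y : T.V} (a : X ⟶ Y) : Prop := ∀ j (x : T.H X j), T.ho a j x = 0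

/-- `e` is the projector of a phantom: a nonzero idempotent that acts as zero on cohomology -/
def IsPhantom {X : T.V} (e : End X) : Prop := e ≠ 0 ∧ e * e = e ∧ HomTrivial e

/-- the sum over all permutations (`d` odd) or the alternating sum (`d` even) -/
def alt (X : T.V) (d n : ℕ) : End (pw T.toChowData X n) :=
  ∑ σ : Equiv.Perm (Fin (n + 1)), (Equiv.Perm.sign σ : ℤ) ^ (d + 1) • T.perms.op X n σ

/-- `h^j(X)` is finite dimensional: with `b = dim H^j(X)`, the power `Λ^(b+1) h^j(X)` vanishes if `j`
is even, and `Sym^(b+1) h^j(X)` vanishes if `j` is odd. -/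
def FiniteDim {X : T.V} (π : ℕ → End X) (j : ℕ) : Prop :=
  alt X j (Module.finrank ℚ (T.H X j)) *
    extPow T.maps X (Module.finrank ℚ (T.H X j)) (fun _ => π j) = 0

/-- `∑ j, (2 ^ b_j - 1)` with `b_j = dim H^j(X)` -/
noncomputable def bound (X : T.V) : ℕ :=
  ∑ j ∈ range (2 * T.dim X + 1), (2 ^ Module.finrank ℚ (T.H X j) - 1)

/-- `ρ` and `π` are conjugate -/
def ConjTo {X : T.V} (π ρ : ℕ → End X) : Prop :=
  ∃ u : (End X)ˣ, ∀ m, ρ m = u * π m * (u⁻¹ : (End X)ˣ)

variable (T)

/-- `P` holds for all Chow-Kuenneth decompositions of all varieties that have one -/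
def ForAllCK (P : ∀ X : T.V, (ℕ → End X) → Prop) : Prop :=
  ∀ (X : T.V) (ρ : ℕ → End X), IsCK T X ρ → P X ρ

/-- every variety has a Chow-Kuenneth decomposition for which `P` holds -/
def ExistsCK (P : ∀ X : T.V, (ℕ → End X) → Prop) : Prop :=
  ∀ X : T.V, ∃ π : ℕ → End X, IsCK T X π ∧ P X π

/-- there is no phantom -/
def NoPhantoms : Prop := ∀ (X : T.V) (e : End X), ¬ IsPhantom e

/-- homologically trivial self-correspondences are nilpotent -/
def NilEnd : Prop := ∀ (X : T.V) (a : End X), HomTrivial a → IsNilpotent a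

/-- products of at least `bound X` homologically trivial self-correspondences of `X` are zero -/
def NilIdeals : Prop := ∀ (X : T.V) (l : List (End X)), (∀ a ∈ l, HomTrivial a) →
  bound X ≤ l.length → l.prod = 0

section bridge

variable {T : ChowTheory}

theorem ch_zero {X Y : T.V} (i : ℕ) (z : T.CH X i) : T.ch (0 : X ⟶ Y) i z = 0 := by
  have h := T.chLaws.add (0 : X ⟶ Y) 0 i z
  rw [add_zero] at h
  exact left_eq_add.1 h

theorem ho_zero {X Y : T.V} (j : ℕ) (x : T.H X j) : T.ho (0 : X ⟶ Y) j x = 0 := by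
  have h := T.hLaws.add (0 : X ⟶ Y) 0 j x
  rw [add_zero] at h
  exact left_eq_add.1 h

/-- the action on Chow groups -/
instance chMod (X : T.V) (i : ℕ) : Module (End X) (T.CH X i) where
  smul a z := T.chMap a i z
  one_smul z := T.chLaws.id X i z
  mul_smul a b z := T.chLaws.comp b a i z
  smul_zero a := map_zero (T.chMap a i)
  smul_add a x y := map_add (T.chMap a i) x y
  add_smul a b z := T.chLaws.add a b i z
  zero_smul z := ch_zero i z

/-- the action on cohomology -/
instance hMod (X : T.V) (j : ℕ) : Module (End X) (T.H X j) where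
  smul a x := T.hMap a j x
  one_smul x := T.hLaws.id X j x
  mul_smul a b x := T.hLaws.comp b a j x
  smul_zero a := map_zero (T.hMap a j)
  smul_add a x y := map_add (T.hMap a j) x y
  add_smul a b x := T.hLaws.add a b j x
  zero_smul x := ho_zero j x

theorem ch_def {X : T.V} (a : End X) (i : ℕ) (z : T.CH X i) : T.ch a i z = a • z := rfl

theorem ho_def {X : T.V} (a : End X) (j : ℕ) (x : T.H X j) : T.ho a j x = a • x := rfl

variable {X : T.V}

theorem IsCK.sact {π : ℕ → End X} (h : IsCK T X π) (i : ℕ) (x : T.H X i) : π i • x = x := h.act i x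

theorem IsCK.sact_ne {π : ℕ → End X} (h : IsCK T X π) (i j : ℕ) (x : T.H X j) (hij : j ≠ i) :
    π i • x = 0 := h.act_ne i j x hij

theorem mkCK {π : ℕ → End X} (h1 : ∀ i, π i * π i = π i) (h2 : ∀ i j, i ≠ j → π i * π j = 0)
    (h3 : ∑ i ∈ range (2 * T.dim X + 1), π i = 1) (h4 : ∀ i, 2 * T.dim X < i → π i = 0)
    (h5 : ∀ i (x : T.H X i), π i • x = x) (h6 : ∀ i j (x : T.H X j), j ≠ i → π i • x = 0) :
    IsCK T X π := ⟨h1, h2, h3, h4, h5, h6⟩

theorem F_eq (π : ℕ → End X) (k i : ℕ) : F T π k i
    = if k ≤ 2 * i then Set.range fun w : T.CH X i => (∑ m ∈ range (2 * i - k + 1), π m) • w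
      else {0} := rfl

end bridge

namespace ChowTheory

/-- the power `X^(n+1)` -/
abbrev pow (T : ChowTheory) (X : T.V) (n : ℕ) : T.V := pw T.toChowData X n

/-- the cycle class of a self-correspondence of degree 0 -/
abbrev cyc (T : ChowTheory) (X : T.V) : End X ≃+ T.CH (T.prod X X) (T.dim X) := T.maps.cyc X

/-- the transpose -/
abbrev tr (T : ChowTheory) (X : T.V) : End X → End X := T.maps.tr X

/-- the product of correspondences -/
abbrev ext (T : ChowTheory) (X Y : T.V) : End X → End Y → End (T.prod X Y) := T.maps.ext X Y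

/-- the exterior product in cohomology -/
abbrev kun (T : ChowTheory) (X Y : T.V) (i j : ℕ) (x : T.H X i) (y : T.H Y j) :
    T.H (T.prod X Y) (i + j) := T.maps.kun X Y i j x y

/-- the Poincare pairing -/
abbrev pair (T : ChowTheory) (X : T.V) (i j : ℕ) : T.H X i → T.H X j → ℚ := T.maps.pair X i j

/-- the permutations of the factors -/
abbrev perm (T : ChowTheory) (X : T.V) (n : ℕ) : Equiv.Perm (Fin (n + 1)) →* End (T.pow X n) :=
  T.perms.perm X n

theorem dim_prod (T : ChowTheory) (X Y : T.V) : T.dim (T.prod X Y) = T.dim X + T.dim Y :=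
  T.trLaws.dim_prod X Y

theorem tr_add (T : ChowTheory) (X : T.V) (a b : End X) : T.tr X (a + b) = T.tr X a + T.tr X b :=
  T.trLaws.tr_add X a b

theorem tr_mul (T : ChowTheory) (X : T.V) (a b : End X) : T.tr X (a * b) = T.tr X b * T.tr X a :=
  T.trLaws.tr_mul X a b

theorem tr_tr (T : ChowTheory) (X : T.V) (a : End X) : T.tr X (T.tr X a) = a :=
  T.trLaws.tr_tr X a

theorem ext_cyc (T : ChowTheory) (X : T.V) (a b c : End X) :
    T.ext X X a b • T.cyc X c = T.cyc X (b * c * T.tr X a) := T.extCyc X a b c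

theorem ext_add_left (T : ChowTheory) (X Y : T.V) (a a' : End X) (b : End Y) :
    T.ext X Y (a + a') b = T.ext X Y a b + T.ext X Y a' b := T.extAdd.left X Y a a' b

theorem ext_add_right (T : ChowTheory) (X Y : T.V) (a : End X) (b b' : End Y) :
    T.ext X Y a (b + b') = T.ext X Y a b + T.ext X Y a b' := T.extAdd.right X Y a b b'

theorem ext_mul (T : ChowTheory) (X Y : T.V) (a a' : End X) (b b' : End Y) :
    T.ext X Y (a * a') (b * b') = T.ext X Y a b * T.ext X Y a' b' := T.extMul.mul X Y a a' b b'

theorem ext_one (T : ChowTheory) (X Y : T.V) : T.ext X Y 1 1 = 1 := T.extMul.one X Y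

theorem kun_act (T : ChowTheory) (X Y : T.V) (i j : ℕ) (a : End X) (b : End Y)
    (x : T.H X i) (y : T.H Y j) :
    T.ext X Y a b • T.kun X Y i j x y = T.kun X Y i j (a • x) (b • y) :=
  T.kunAct X Y i j a b x y

theorem kun_zero_left (T : ChowTheory) (X Y : T.V) (i j : ℕ) (y : T.H Y j) :
    T.kun X Y i j 0 y = 0 := by
  show T.maps.kun X Y i j 0 y = 0
  rw [map_zero]
  rfl

theorem kun_zero_right (T : ChowTheory) (X Y : T.V) (i j : ℕ) (x : T.H X i) :
    T.kun X Y i j x 0 = 0 := map_zero (T.maps.kun X Y i j x)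

theorem kun_add_left (T : ChowTheory) (X Y : T.V) (i j : ℕ) (x x' : T.H X i) (y : T.H Y j) :
    T.kun X Y i j (x + x') y = T.kun X Y i j x y + T.kun X Y i j x' y := by
  show T.maps.kun X Y i j (x + x') y = _
  rw [map_add]
  rfl

theorem kun_span (T : ChowTheory) (X Y : T.V) (P : ∀ m, T.H (T.prod X Y) m → Prop)
    (h0 : ∀ m, P m 0) (ha : ∀ m x y, P m x → P m y → P m (x + y))
    (hg : ∀ i j x y, P (i + j) (T.kun X Y i j x y)) : ∀ m z, P m z := T.kunSpan X Y P h0 ha hg

theorem pair_zero_left (T : ChowTheory) (X : T.V) (i j : ℕ) (y : T.H X j) :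
    T.pair X i j 0 y = 0 := by
  have h := T.pairAdd.left X i j 0 0 y
  rw [add_zero] at h
  exact left_eq_add.1 h

theorem pair_sub_right (T : ChowTheory) (X : T.V) (i j : ℕ) (x : T.H X i) (y y' : T.H X j) :
    T.pair X i j x (y - y') = T.pair X i j x y - T.pair X i j x y' := by
  have h := T.pairAdd.right X i j x (y - y') y'
  rw [sub_add_cancel] at h
  exact eq_sub_of_add_eq h.symm

theorem pair_act (T : ChowTheory) (X : T.V) (i j : ℕ) (a : End X)
    (x : T.H X i) (y : T.H X j) : T.pair X i j (a • x) y = T.pair X i j x (T.tr X a • y) :=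
  T.pairAct X i j a x y

theorem pair_nondeg (T : ChowTheory) (X : T.V) (j : ℕ) (y : T.H X j)
    (hy : ∀ i x, i + j = 2 * T.dim X → T.pair X i j x y = 0) : y = 0 := by
  refine T.pairNondeg X j y fun i x => ?_
  by_cases h : i + j = 2 * T.dim X
  · exact hy i x h
  · exact T.pairAdd.deg X i j x y h

theorem H_top (T : ChowTheory) (X : T.V) (j : ℕ) (h : 2 * T.dim X < j) (x : T.H X j) : x = 0 :=
  T.pair_nondeg X j x fun i _ hi => by omega

end ChowTheory

section partC

variable {T : ChowTheory}

section basics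

variable {X Y : T.V}

theorem tr_zero : T.tr X 0 = 0 := by
  have h := T.tr_add X 0 0
  rw [add_zero] at h
  exact left_eq_add.1 h

theorem tr_one : T.tr X 1 = 1 := by
  have h := T.tr_mul X (T.tr X 1) 1
  rw [mul_one, T.tr_tr, mul_one] at h
  exact h.symm

theorem tr_sum (s : Finset ℕ) (f : ℕ → End X) : T.tr X (∑ i ∈ s, f i) = ∑ i ∈ s, T.tr X (f i) := by
  classical
  induction s using Finset.induction_on with
  | empty => simp [tr_zero]
  | insert a s ha ih => rw [sum_insert ha, sum_insert ha, T.tr_add, ih]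

theorem ext_zero_left (b : End Y) : T.ext X Y 0 b = 0 := by
  have h := T.ext_add_left X Y 0 0 b
  rw [add_zero] at h
  exact left_eq_add.1 h

theorem ext_zero_right (a : End X) : T.ext X Y a 0 = 0 := by
  have h := T.ext_add_right X Y a 0 0
  rw [add_zero] at h
  exact left_eq_add.1 h

theorem ext_sum_left (s : Finset ℕ) (f : ℕ → End X) (b : End Y) :
    T.ext X Y (∑ i ∈ s, f i) b = ∑ i ∈ s, T.ext X Y (f i) b := by
  classical
  induction s using Finset.induction_on with
  | empty => simp [ext_zero_left]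
  | insert a s ha ih => rw [sum_insert ha, sum_insert ha, T.ext_add_left, ih]

theorem ext_sum_right (s : Finset ℕ) (a : End X) (f : ℕ → End Y) :
    T.ext X Y a (∑ i ∈ s, f i) = ∑ i ∈ s, T.ext X Y a (f i) := by
  classical
  induction s using Finset.induction_on with
  | empty => simp [ext_zero_right]
  | insert b s hb ih => rw [sum_insert hb, sum_insert hb, T.ext_add_right, ih]

/-- the dual decomposition -/
def dualCK (π : ℕ → End X) (i : ℕ) : End X :=
  if i ≤ 2 * T.dim X then T.tr X (π (2 * T.dim X - i)) else 0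

theorem dualCK_isCK {π : ℕ → End X} (h : IsCK T X π) : IsCK T X (dualCK π) := by
  refine mkCK ?_ ?_ ?_ ?_ ?_ ?_
  · intro i
    unfold dualCK
    split_ifs
    · rw [← T.tr_mul, h.idem]
    · simp
  · intro i j hij
    unfold dualCK
    split_ifs with h1 h2
    · rw [← T.tr_mul, h.orth _ _ (by omega), tr_zero]
    · simp
    · simp
    · simp
  · have h1 : ∑ i ∈ range (2 * T.dim X + 1), dualCK π i
        = ∑ i ∈ range (2 * T.dim X + 1), T.tr X (π (2 * T.dim X + 1 - 1 - i)) := by
      refine sum_congr rfl fun i hi => ?_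
      rw [mem_range] at hi
      unfold dualCK
      rw [if_pos (by omega)]
      congr 2
    rw [h1, ← tr_sum _ (fun i => π (2 * T.dim X + 1 - 1 - i)), sum_range_reflect, h.sum, tr_one]
  · intro i hi
    unfold dualCK
    rw [if_neg (by omega)]
  · intro i x
    by_cases hi : i ≤ 2 * T.dim X
    · unfold dualCK
      rw [if_pos hi]
      rw [← sub_eq_zero]
      refine T.pair_nondeg X _ _ fun i' y hi' => ?_
      obtain rfl : i' = 2 * T.dim X - i := by omega
      rw [T.pair_sub_right, ← T.pair_act, h.sact, sub_self]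
    · rw [T.H_top X i (by omega) x, smul_zero]
  · intro i j x hij
    by_cases hi : i ≤ 2 * T.dim X
    · by_cases hj : j ≤ 2 * T.dim X
      · unfold dualCK
        rw [if_pos hi]
        refine T.pair_nondeg X _ _ fun j' y hj' => ?_
        rw [← T.pair_act, h.sact_ne _ _ _ (by omega), T.pair_zero_left]
      · rw [T.H_top X j (by omega) x, smul_zero]
    · unfold dualCK
      rw [if_neg hi, zero_smul]

/-- the product decomposition -/
def prodCK (π : ℕ → End X) (ρ : ℕ → End Y) (m : ℕ) : End (T.prod X Y) :=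
  ∑ p ∈ antidiagonal m, T.ext X Y (π p.1) (ρ p.2)

theorem ext_mul_ext {π : ℕ → End X} {ρ : ℕ → End Y} (h : IsCK T X π) (h' : IsCK T Y ρ)
    (p q : ℕ × ℕ) : T.ext X Y (π p.1) (ρ p.2) * T.ext X Y (π q.1) (ρ q.2)
      = if p = q then T.ext X Y (π p.1) (ρ p.2) else 0 := by
  rw [← T.ext_mul]
  split_ifs with hpq
  · rw [hpq, h.idem, h'.idem]
  · by_cases h1 : p.1 = q.1
    · have h2 : p.2 ≠ q.2 := fun h2 => hpq (Prod.ext h1 h2)
      rw [h'.orth _ _ h2, ext_zero_right]
    · rw [h.orth _ _ h1, ext_zero_left]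

theorem ext_mul_prodCK {π : ℕ → End X} {ρ : ℕ → End Y} (h : IsCK T X π) (h' : IsCK T Y ρ)
    (p : ℕ × ℕ) (m : ℕ) : T.ext X Y (π p.1) (ρ p.2) * prodCK π ρ m
      = if p.1 + p.2 = m then T.ext X Y (π p.1) (ρ p.2) else 0 := by
  unfold prodCK
  rw [mul_sum]
  simp_rw [ext_mul_ext h h']
  rw [sum_ite_eq]
  simp only [HasAntidiagonal.mem_antidiagonal]

theorem prodCK_mul_ext {π : ℕ → End X} {ρ : ℕ → End Y} (h : IsCK T X π) (h' : IsCK T Y ρ)
    (p : ℕ × ℕ) (m : ℕ) : prodCK π ρ m * T.ext X Y (π p.1) (ρ p.2)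
      = if p.1 + p.2 = m then T.ext X Y (π p.1) (ρ p.2) else 0 := by
  unfold prodCK
  rw [sum_mul]
  simp_rw [ext_mul_ext h h']
  have h1 : ∀ q ∈ antidiagonal m, (if q = p then T.ext X Y (π q.1) (ρ q.2) else 0)
      = if q = p then T.ext X Y (π p.1) (ρ p.2) else 0 := by
    intro q _
    split_ifs with hq
    · rw [hq]
    · rfl
  rw [sum_congr rfl h1, sum_ite_eq']
  simp only [HasAntidiagonal.mem_antidiagonal]

theorem prodCK_isCK {π : ℕ → End X} {ρ : ℕ → End Y} (h : IsCK T X π) (h' : IsCK T Y ρ) :
    IsCK T (T.prod X Y) (prodCK π ρ) := by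
  have hmul : ∀ m m', prodCK π ρ m * prodCK π ρ m' = if m = m' then prodCK π ρ m else 0 := by
    intro m m'
    conv_lhs => rw [prodCK, sum_mul]
    rw [sum_congr rfl fun p _ => ext_mul_prodCK h h' p m']
    split_ifs with hm
    · subst hm
      refine sum_congr rfl fun p hp => ?_
      rw [HasAntidiagonal.mem_antidiagonal] at hp
      rw [if_pos hp]
    · refine sum_eq_zero fun p hp => ?_
      rw [HasAntidiagonal.mem_antidiagonal] at hp
      rw [if_neg (by omega)]
  have hact : ∀ m m' (z : T.H (T.prod X Y) m'), prodCK π ρ m • z = if m = m' then z else 0 := by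
    intro m
    refine T.kun_span X Y (fun m' z => prodCK π ρ m • z = if m = m' then z else 0) ?_ ?_ ?_
    · intro m'
      simp
    · intro m' a b ha hb
      rw [smul_add, ha, hb]
      split_ifs <;> simp
    · intro i j x y
      show prodCK π ρ m • T.kun X Y i j x y = if m = i + j then T.kun X Y i j x y else 0
      unfold prodCK
      rw [sum_smul]
      have h1 : ∀ p : ℕ × ℕ, T.ext X Y (π p.1) (ρ p.2) • T.kun X Y i j x y
          = if (i, j) = p then T.kun X Y i j x y else 0 := by
        intro p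
        rw [T.kun_act]
        split_ifs with hp
        · subst hp
          rw [h.sact, h'.sact]
        · by_cases hp1 : i = p.1
          · have hp2 : j ≠ p.2 := fun hp2 => hp (Prod.ext hp1 hp2)
            rw [h'.sact_ne _ _ _ hp2, T.kun_zero_right]
          · rw [h.sact_ne _ _ _ hp1, T.kun_zero_left]
      simp_rw [h1]
      rw [sum_ite_eq]
      simp only [HasAntidiagonal.mem_antidiagonal]
      simp only [eq_comm]
  refine mkCK ?_ ?_ ?_ ?_ ?_ ?_
  · intro i
    rw [hmul, if_pos rfl]
  · intro i j hij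
    rw [hmul, if_neg hij]
  · have h1 : (1 : End (T.prod X Y)) = ∑ p ∈ range (2 * T.dim X + 1) ×ˢ range (2 * T.dim Y + 1),
        T.ext X Y (π p.1) (ρ p.2) := by
      rw [sum_product]
      simp_rw [← ext_sum_right]
      rw [← ext_sum_left, h.sum, h'.sum, T.ext_one]
    rw [h1, ← sum_fiberwise_of_maps_to (s := range (2 * T.dim X + 1) ×ˢ range (2 * T.dim Y + 1))
      (t := range (2 * T.dim (T.prod X Y) + 1)) (g := fun p : ℕ × ℕ => p.1 + p.2)]
    · refine sum_congr rfl fun m _ => ?_
      unfold prodCK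
      symm
      refine sum_subset ?_ ?_
      · intro p hp
        rw [mem_filter] at hp
        rw [HasAntidiagonal.mem_antidiagonal]
        exact hp.2
      · intro p hp hp'
        rw [HasAntidiagonal.mem_antidiagonal] at hp
        rw [mem_filter, mem_product, mem_range, mem_range] at hp'
        by_cases h2 : 2 * T.dim X < p.1
        · rw [h.top _ h2, ext_zero_left]
        · have h3 : 2 * T.dim Y < p.2 := by
            by_contra h3
            exact hp' ⟨⟨by omega, by omega⟩, hp⟩
          rw [h'.top _ h3, ext_zero_right]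
    · intro p hp
      rw [mem_product, mem_range, mem_range] at hp
      rw [mem_range, T.dim_prod]
      omega
  · intro m hm
    unfold prodCK
    refine sum_eq_zero fun p hp => ?_
    rw [HasAntidiagonal.mem_antidiagonal] at hp
    rw [T.dim_prod] at hm
    by_cases h2 : 2 * T.dim X < p.1
    · rw [h.top _ h2, ext_zero_left]
    · rw [h'.top _ (by omega), ext_zero_right]
  · intro i x
    rw [hact, if_pos rfl]
  · intro i j x hij
    rw [hact, if_neg (Ne.symm hij)]

end basics

section core

variable {X : T.V}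

theorem smul_eq_zero_of_F0 {π : ℕ → End X} (h : IsCK T X π) {i m : ℕ}
    (hF : F T π 0 i = Set.univ) (hm : 2 * i < m) (z : T.CH X i) : π m • z = 0 := by
  have hz : z ∈ F T π 0 i := by
    rw [hF]
    trivial
  rw [F_eq] at hz
  rw [if_pos (by omega)] at hz
  obtain ⟨w, rfl⟩ := hz
  dsimp only
  rw [smul_smul, mul_sum, sum_eq_zero, zero_smul]
  intro j hj
  rw [mem_range] at hj
  exact h.orth _ _ (by omega)

theorem F0_eq_univ {π : ℕ → End X} (h : IsCK T X π) {i : ℕ}
    (h0 : ∀ m (z : T.CH X i), 2 * i < m → π m • z = 0) : F T π 0 i = Set.univ := by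
  rw [Set.eq_univ_iff_forall]
  intro z
  rw [F_eq]
  rw [if_pos (by omega)]
  refine ⟨z, ?_⟩
  dsimp only
  have e1 : ∑ m ∈ range (2 * i - 0 + 1), π m • z
      = ∑ m ∈ range (2 * i + 2 * T.dim X + 1), π m • z := by
    refine sum_subset (range_subset_range.2 (by omega)) ?_
    intro m _ hm
    rw [mem_range] at hm
    exact h0 m z (by omega)
  have e2 : ∑ m ∈ range (2 * T.dim X + 1), π m • z
      = ∑ m ∈ range (2 * i + 2 * T.dim X + 1), π m • z := by
    refine sum_subset (range_subset_range.2 (by omega)) ?_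
    intro m _ hm
    rw [mem_range] at hm
    rw [h.top m (by omega), zero_smul]
  rw [sum_smul, e1, ← e2, ← sum_smul, h.sum, one_smul]

theorem smul_eq_zero_of_F1 {π : ℕ → End X} (h : IsCK T X π) {i m : ℕ}
    (hF : F T π (i + 1) i = {0}) (hm : m < i) (z : T.CH X i) : π m • z = 0 := by
  have hz : (∑ j ∈ range (2 * i - (i + 1) + 1), π j) • z ∈ F T π (i + 1) i := by
    rw [F_eq]
    rw [if_pos (by omega)]
    exact ⟨z, rfl⟩
  rw [hF, Set.mem_singleton_iff] at hz
  have h1 : π m = π m * ∑ j ∈ range (2 * i - (i + 1) + 1), π j := by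
    rw [mul_sum, sum_eq_single m]
    · exact (h.idem m).symm
    · intro j _ hj
      exact h.orth _ _ (Ne.symm hj)
    · intro hm'
      rw [mem_range] at hm'
      omega
  rw [h1, mul_smul, hz, smul_zero]

theorem F1_eq_zero {π : ℕ → End X} {i : ℕ}
    (h0 : ∀ m (z : T.CH X i), m < i → π m • z = 0) : F T π (i + 1) i = {0} := by
  rw [F_eq]
  split_ifs with hi
  · ext z
    constructor
    · rintro ⟨w, rfl⟩
      dsimp only
      rw [Set.mem_singleton_iff, sum_smul]
      refine sum_eq_zero fun m hm => ?_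
      rw [mem_range] at hm
      exact h0 m w (by omega)
    · intro hz
      rw [Set.mem_singleton_iff] at hz
      exact ⟨0, by dsimp only; rw [smul_zero, hz]⟩
  · rfl

theorem move {π : ℕ → End X} (h : IsCK T X π) {g : End X} {a b : ℕ} (hab : a ≠ b)
    (ha : a ≤ 2 * T.dim X) (hb : b ≤ 2 * T.dim X)
    (hg : g * g = g) (hl : π a * g = g) (hr : g * π a = g)
    (hH : ∀ j (x : T.H X j), g • x = 0) :
    IsCK T X (fun m => π m + (if m = b then g else 0) - (if m = a then g else 0)) := by
  have hl' : ∀ m, m ≠ a → π m * g = 0 := by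
    intro m hm
    rw [← hl, ← mul_assoc, h.orth _ _ hm, zero_mul]
  have hr' : ∀ m, m ≠ a → g * π m = 0 := by
    intro m hm
    rw [← hr, mul_assoc, h.orth _ _ (Ne.symm hm), mul_zero]
  refine mkCK ?_ ?_ ?_ ?_ ?_ ?_
  · intro i
    by_cases h1 : i = a
    · subst h1
      rw [if_neg hab, if_pos rfl, add_zero]
      simp only [mul_sub, sub_mul, h.idem, hl, hr, hg]
      abel
    · by_cases h2 : i = b
      · subst h2
        rw [if_pos rfl, if_neg h1, sub_zero]
        simp only [mul_add, add_mul, h.idem, hl' _ h1, hr' _ h1, hg]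
        abel
      · rw [if_neg h1, if_neg h2, add_zero, sub_zero, h.idem]
  · intro i j hij
    by_cases h1 : i = a
    · subst h1
      rw [if_neg hab, if_pos rfl, add_zero]
      rw [if_neg (Ne.symm hij), sub_zero]
      by_cases h2 : j = b
      · subst h2
        rw [if_pos rfl]
        simp only [mul_add, sub_mul, h.orth _ _ hij, hl, hr' _ (Ne.symm hij), hg]
        abel
      · rw [if_neg h2, add_zero, sub_mul, h.orth _ _ hij, hr' _ (Ne.symm hij), sub_zero]
    · rw [if_neg h1, sub_zero]
      by_cases h2 : i = b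
      · subst h2
        rw [if_pos rfl, if_neg (Ne.symm hij), add_zero]
        by_cases h3 : j = a
        · subst h3
          rw [if_pos rfl]
          simp only [mul_sub, add_mul, h.orth _ _ hij, hr, hl' _ h1, hg]
          abel
        · rw [if_neg h3, sub_zero, add_mul, h.orth _ _ hij, hr' _ h3, add_zero]
      · rw [if_neg h2, add_zero]
        by_cases h3 : j = a
        · subst h3
          rw [if_neg hab, if_pos rfl, add_zero, mul_sub, h.orth _ _ hij, hl' _ h1, sub_zero]
        · rw [if_neg h3, sub_zero]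
          by_cases h4 : j = b
          · subst h4
            rw [if_pos rfl, mul_add, h.orth _ _ hij, hl' _ h1, add_zero]
          · rw [if_neg h4, add_zero, h.orth _ _ hij]
  · rw [sum_sub_distrib, sum_add_distrib, h.sum, sum_ite_eq', sum_ite_eq',
      if_pos (mem_range.2 (by omega)), if_pos (mem_range.2 (by omega))]
    abel
  · intro i hi
    rw [h.top i hi, if_neg (by omega), if_neg (by omega)]
    simp
  · intro i x
    rw [sub_smul, add_smul, h.sact]
    split_ifs <;> simp [hH]
  · intro i j x hij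
    rw [sub_smul, add_smul, h.sact_ne _ _ _ hij]
    split_ifs <;> simp [hH]

/-- the product decomposition of `X^(n+1)` -/
def powCK {X : T.V} (π : ℕ → End X) : (n : ℕ) → ℕ → End (T.pow X n)
  | 0 => π
  | n + 1 => prodCK (powCK π n) π

theorem powCK_isCK {π : ℕ → End X} (h : IsCK T X π) (n : ℕ) : IsCK T (T.pow X n) (powCK π n) := by
  induction n with
  | zero => exact h
  | succ n ih => exact prodCK_isCK ih h

theorem homog_ext {X Y : T.V} {α : ℕ → End Y} {π : ℕ → End X} (h0 : IsCK T Y α) (h : IsCK T X π)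
    {P : End Y} {d : ℕ} (i1 : P * α d = P) (i2 : α d * P = P) (j : ℕ) :
    T.ext Y X P (π j) * prodCK α π (d + j) = T.ext Y X P (π j) ∧
    prodCK α π (d + j) * T.ext Y X P (π j) = T.ext Y X P (π j) := by
  have e2 : T.ext Y X P (π j) = T.ext Y X P (π j) * T.ext Y X (α d) (π j) := by
    rw [← T.ext_mul, i1, h.idem]
  have e3 : T.ext Y X P (π j) = T.ext Y X (α d) (π j) * T.ext Y X P (π j) := by
    rw [← T.ext_mul, i2, h.idem]
  have e4 := ext_mul_prodCK h0 h (d, j) (d + j)
  have e5 := prodCK_mul_ext h0 h (d, j) (d + j)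
  rw [if_pos rfl] at e4 e5
  constructor
  · rw [e2, mul_assoc, e4]
  · rw [e3, ← mul_assoc, e5]

theorem extPow_powCK {π : ℕ → End X} (h : IsCK T X π) (j n : ℕ) :
    extPow T.maps X n (fun _ => π j) * powCK π n (degPow j n) = extPow T.maps X n (fun _ => π j) ∧
    powCK π n (degPow j n) * extPow T.maps X n (fun _ => π j)
      = extPow T.maps X n (fun _ => π j) := by
  induction n with
  | zero => exact ⟨h.idem j, h.idem j⟩
  | succ n ih => exact homog_ext (powCK_isCK h n) h ih.1 ih.2 j

end core

end partC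

section bridge2

variable {T : ChowTheory}

theorem l_ptr_mul (M N : T.V) (a : End M) (b : End (T.prod M N)) :
    T.maps.ptr M N (T.maps.ext M N a 1 * b) = a * T.maps.ptr M N b := T.ptrLaws.mul M N a b

theorem l_ptr_ext (M N : T.V) (a : End M) (b : End N) :
    T.maps.ptr M N (T.maps.ext M N a b) = T.trace b • a := T.ptrLaws.ext M N a b

theorem l_kun_act (M N : T.V) (i j : ℕ) (a : End M) (b : End N) (x : T.H M i) (y : T.H N j) :
    T.hMap (T.maps.ext M N a b) (i + j) (T.maps.kun M N i j x y)
      = T.maps.kun M N i j (T.hMap a i x) (T.hMap b j y) := T.kunAct M N i j a b x y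

theorem l_kun_span (M N : T.V) (P : ∀ m, T.H (T.prod M N) m → Prop) (h0 : ∀ m, P m 0)
    (ha : ∀ m x y, P m x → P m y → P m (x + y))
    (hg : ∀ i j x y, P (i + j) (T.maps.kun M N i j x y)) : ∀ m z, P m z :=
  T.kunSpan M N P h0 ha hg

theorem l_perm_ext (M : T.V) (n : ℕ) (σ : Equiv.Perm (Fin (n + 1))) (a : Fin (n + 1) → End M) :
    T.perm M n σ * extPow T.maps M n a = extPow T.maps M n (fun i => a (σ⁻¹ i)) * T.perm M n σ :=
  T.permExt M n σ a

theorem l_perm_succ (M : T.V) (n : ℕ) (σ : Equiv.Perm (Fin (n + 1)))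
    (σ' : Equiv.Perm (Fin (n + 2))) (h : ∀ i, σ' i.castSucc = (σ i).castSucc) :
    T.perm M (n + 1) σ' = T.maps.ext (T.pow M n) M (T.perm M n σ) 1 := T.permSucc M n σ σ' h

theorem l_perm_kun (M : T.V) (d : ℕ) (n : ℕ) (σ : Equiv.Perm (Fin (n + 1)))
    (x : Fin (n + 1) → T.H M d) : T.hMap (T.perm M n σ) (degPow d n) (kunPow T.maps M d n x)
      = (Equiv.Perm.sign σ : ℤ) ^ d • kunPow T.maps M d n (fun i => x (σ⁻¹ i)) :=
  T.permKun M d n σ x

theorem l_ptr_swap (M : T.V) (n : ℕ) (j : Fin (n + 1)) (a : Fin (n + 2) → End M) :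
    T.maps.ptr (T.pow M n) M (T.perm M (n + 1) (Equiv.swap j.castSucc (Fin.last (n + 1))) *
        extPow T.maps M (n + 1) a)
      = extPow T.maps M n (Function.update (fun i => a i.castSucc) j
          (a (Fin.last (n + 1)) * a j.castSucc)) := T.ptrSwap M n j a

theorem alt_eq (M : T.V) (d n : ℕ) : alt M d n
    = ∑ σ : Equiv.Perm (Fin (n + 1)), (Equiv.Perm.sign σ : ℤ) ^ (d + 1) • T.perm M n σ := rfl

end bridge2

section blocks

variable {R : Type} [Ring R]

/-- the products `q a₁ q a₂ q ... a_m q` with `m ≥ k` factors `a_i` in `N` vanish -/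
def Kills (N : R → Prop) (q : R) (k : ℕ) : Prop :=
  ∀ l : List R, (∀ a ∈ l, N a) → k ≤ l.length → q * (l.map (fun a => a * q)).prod = 0

/-- `N` is a two-sided ideal -/
structure IsTwo (N : R → Prop) : Prop where
  zero : N 0
  add : ∀ x y, N x → N y → N (x + y)
  neg : ∀ x, N x → N (-x)
  left : ∀ a x, N x → N (a * x)
  right : ∀ a x, N x → N (x * a)

theorem kills_add {N : R → Prop} (hN : IsTwo N) {q p : R} {k m : ℕ} (hq : Kills N q k)
    (hp : Kills N p m) : Kills N (q + p) (k + m) := by
  have key : ∀ (l : List R), (∀ a ∈ l, N a) → ∀ (x : R) (i j : ℕ),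
      (∀ l' : List R, (∀ a ∈ l', N a) → k + 1 ≤ i + l'.length →
        x * (l'.map (fun a => a * q)).prod = 0) →
      (∀ l' : List R, (∀ a ∈ l', N a) → m + 1 ≤ j + l'.length →
        x * (l'.map (fun a => a * p)).prod = 0) →
      k + m + 1 ≤ i + j + l.length → x * (l.map (fun a => a * (q + p))).prod = 0 := by
    intro l
    induction l with
    | nil =>
      intro _ x i j h1 h2 hlen
      rw [List.length_nil] at hlen
      by_cases hi : k + 1 ≤ i
      · have := h1 [] (by simp) (by simpa using hi)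
        simpa using this
      · have := h2 [] (by simp) (by rw [List.length_nil]; omega)
        simpa using this
    | cons a l ih =>
      intro hl x i j h1 h2 hlen
      have ha : N a := hl a (by simp)
      have hl' : ∀ b ∈ l, N b := fun b hb => hl b (List.mem_cons_of_mem _ hb)
      rw [List.length_cons] at hlen
      rw [List.map_cons, List.prod_cons]
      have e1 : x * (a * (q + p) * (l.map (fun a => a * (q + p))).prod)
          = x * a * q * (l.map (fun a => a * (q + p))).prod
            + x * a * p * (l.map (fun a => a * (q + p))).prod := by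
        rw [mul_add, add_mul, mul_add]
        simp only [mul_assoc]
      rw [e1]
      have step : ∀ (r s : R) (i j k m : ℕ), (∀ l' : List R, (∀ a ∈ l', N a) → k + 1 ≤ i + l'.length →
          x * (l'.map (fun a => a * r)).prod = 0) →
          (∀ l' : List R, (∀ a ∈ l', N a) → m + 1 ≤ j + l'.length →
          x * (l'.map (fun a => a * s)).prod = 0) →
          (∀ l' : List R, (∀ a ∈ l', N a) → k + 1 ≤ (i + 1) + l'.length →
            x * a * r * (l'.map (fun a => a * r)).prod = 0) ∧
          (∀ l' : List R, (∀ a ∈ l', N a) → m + 1 ≤ j + l'.length →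
            x * a * r * (l'.map (fun a => a * s)).prod = 0) := by
        intro r s i j k m h1 h2
        constructor
        · intro l' hl1 hlen'
          have h3 := h1 (a :: l') (by
            intro b hb
            rcases List.mem_cons.1 hb with rfl | hb
            · exact ha
            · exact hl1 b hb) (by rw [List.length_cons]; omega)
          rw [List.map_cons, List.prod_cons] at h3
          rw [← h3]
          simp only [mul_assoc]
        · intro l' hl1 hlen'
          cases l' with
          | nil =>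
            have h3 := h2 [] (by simp) hlen'
            rw [List.map_nil, List.prod_nil, mul_one] at h3 ⊢
            rw [h3, zero_mul, zero_mul]
          | cons b l' =>
            have h3 := h2 (a * r * b :: l') (by
              intro c hc
              rcases List.mem_cons.1 hc with rfl | hc
              · exact hN.left _ _ (hl1 b (by simp))
              · exact hl1 c (List.mem_cons_of_mem _ hc)) (by
                rw [List.length_cons] at hlen' ⊢
                omega)
            rw [List.map_cons, List.prod_cons] at h3 ⊢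
            rw [← h3]
            simp only [mul_assoc]
      have hA := step q p i j k m h1 h2
      have hB := step p q j i m k h2 h1
      rw [ih hl' (x * a * q) (i + 1) j hA.1 hA.2 (by omega),
        ih hl' (x * a * p) i (j + 1) hB.2 hB.1 (by omega), add_zero]
  have start : ∀ (r s : R) (k m : ℕ), Kills N r k → Kills N s m →
      (∀ l' : List R, (∀ a ∈ l', N a) → k + 1 ≤ 1 + l'.length →
        r * (l'.map (fun a => a * r)).prod = 0) ∧
      (∀ l' : List R, (∀ a ∈ l', N a) → m + 1 ≤ 0 + l'.length →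
        r * (l'.map (fun a => a * s)).prod = 0) := by
    intro r s k m hr hs
    constructor
    · intro l' hl1 hlen
      exact hr l' hl1 (by omega)
    · intro l' hl1 hlen
      cases l' with
      | nil =>
        rw [List.length_nil] at hlen
        omega
      | cons b l' =>
        rw [List.map_cons, List.prod_cons, mul_assoc b]
        rw [hs l' (fun c hc => hl1 c (List.mem_cons_of_mem _ hc)) (by
          rw [List.length_cons] at hlen
          omega), mul_zero, mul_zero]
  intro l hl hlen
  rw [add_mul]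
  have h1 := start q p k m hq hp
  have h2 := start p q m k hp hq
  rw [key l hl q 1 0 h1.1 h1.2 (by omega), key l hl p 0 1 h2.2 h2.1 (by omega), add_zero]

theorem kills_zero (N : R → Prop) : Kills N (0 : R) 0 := fun _ _ _ => zero_mul _

theorem kills_sum {ι : Type} {N : R → Prop} (hN : IsTwo N) (s : Finset ι) (q : ι → R) (k : ι → ℕ)
    (h : ∀ i ∈ s, Kills N (q i) (k i)) : Kills N (∑ i ∈ s, q i) (∑ i ∈ s, k i) := by
  classical
  induction s using Finset.induction_on with
  | empty =>
    rw [sum_empty, sum_empty]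
    exact kills_zero N
  | insert i s hi ih =>
    rw [sum_insert hi, sum_insert hi]
    exact kills_add hN (h i (mem_insert_self i s)) (ih fun j hj => h j (mem_insert_of_mem hj))

theorem kills_sum' {ι : Type} {N : R → Prop} (hN : IsTwo N) (s : Finset ι) (q : ι → R)
    (h : ∀ i ∈ s, ∃ k, Kills N (q i) k) : ∃ k, Kills N (∑ i ∈ s, q i) k := by
  classical
  have h' : ∀ i, ∃ k, i ∈ s → Kills N (q i) k := fun i => by
    by_cases hi : i ∈ s
    · obtain ⟨k, hk⟩ := h i hi
      exact ⟨k, fun _ => hk⟩
    · exact ⟨0, fun hi' => absurd hi' hi⟩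
  choose k hk using h'
  exact ⟨_, kills_sum hN s q k hk⟩

/-- `q` may be multiplied on both sides -/
theorem kills_mul {N : R → Prop} (hN : IsTwo N) {q : R} {k : ℕ} (hq : Kills N q k) (u v : R) :
    Kills N (u * q * v) k := by
  intro l hl hlen
  have h1 : ∀ l : List R, u * q * v * (l.map (fun a => a * (u * q * v))).prod
      = u * (q * ((l.map (fun a => v * a * u)).map (fun a => a * q)).prod) * v := by
    intro l
    induction l with
    | nil => simp
    | cons a l ih =>
      have e1 : ∀ z, u * q * v * (a * (u * q * v) * z) = u * q * (v * a) * (u * q * v * z) := by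
        intro z
        simp only [mul_assoc]
      rw [List.map_cons, List.prod_cons, e1, ih, List.map_cons, List.map_cons, List.prod_cons]
      simp only [mul_assoc]
  rw [h1, hq, mul_zero, zero_mul]
  · intro a ha
    obtain ⟨b, hb, rfl⟩ := List.mem_map.1 ha
    exact hN.right _ _ (hN.left _ _ (hl b hb))
  · rwa [List.length_map]

theorem kills_pow {N : R → Prop} {s w : R} {k : ℕ} (hs : Kills N s k) (hw : N w)
    (hc : Commute s w) : w ^ k * s ^ (k + 1) = 0 := by
  have h1 := hs (List.replicate k w) (fun a ha => by rw [List.eq_of_mem_replicate ha]; exact hw)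
    (by rw [List.length_replicate])
  rw [List.map_replicate, List.prod_replicate, hc.symm.mul_pow, ← mul_assoc,
    (hc.pow_right k).eq, mul_assoc, ← pow_succ'] at h1
  exact h1

/-- an idempotent modulo `N` can be lifted, if it is killed -/
theorem lift_idem {N : R → Prop} (hN : IsTwo N) {s : R} {k : ℕ} (hs : Kills N s k)
    (hw : N (s - s ^ 2)) : ∃ e : R, e * e = e ∧ N (e - s) ∧ Kills N e k ∧
      ∃ b, e = s * b ∧ e = b * s := by
  set w := s - s ^ 2 with hwdef
  have hc : Commute s w := by
    rw [hwdef]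
    exact (Commute.refl s).sub_right ((Commute.refl s).pow_right 2)
  have h1 := kills_pow hs hw hc
  have hw1 : w = s * (1 - s) := by rw [hwdef, mul_sub, mul_one, sq]
  have hc1 : Commute s (1 - s) := (Commute.one_right s).sub_right (Commute.refl s)
  have h2 : w ^ (k + (k + 1)) = 0 := by
    rw [pow_add]
    conv_lhs => rw [hw1]
    rw [← hw1, hw1, hc1.mul_pow (k + 1), ← mul_assoc, ← hw1, h1, zero_mul]
  set n := k + (k + 1) with hn
  have hidem := isIdempotentElem_one_sub_one_sub_pow_pow s n h2
  -- the idempotent is a multiple of `s`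
  have hg : ∀ (x : R) (m : ℕ), ∃ b : R, 1 - (1 - x) ^ m = x * b ∧
      ∀ y, Commute y x → Commute y b := by
    intro x m
    refine ⟨∑ i ∈ range m, (1 - x) ^ i, ?_, ?_⟩
    · have h3 := mul_neg_geom_sum (1 - x) m
      rw [sub_sub_cancel] at h3
      exact h3.symm
    · exact fun y hy => Commute.sum_right _ _ _ fun i _ =>
        ((Commute.one_right y).sub_right hy).pow_right i
  obtain ⟨b, hb, hbc⟩ := hg (s ^ n) n
  have hn0 : n = (n - 1) + 1 := by omega
  refine ⟨1 - (1 - s ^ n) ^ n, hidem.eq, ?_, ?_, s ^ (n - 1) * b, ?_, ?_⟩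
  · -- modulo `N`
    have hmod : ∀ m : ℕ, 0 < m → ∀ x : R, N (x - x ^ 2) → N (x ^ m - x) := by
      intro m hm x hx
      obtain ⟨j, rfl⟩ : ∃ j, m = j + 1 := ⟨m - 1, by omega⟩
      clear hm
      induction j with
      | zero => rw [zero_add, pow_one, sub_self]; exact hN.zero
      | succ j ih =>
        have e1 : x ^ (j + 1 + 1) - x = x * (x ^ (j + 1) - x) + -(x - x ^ 2) := by
          rw [pow_succ' x (j + 1), mul_sub, sq]
          abel
        rw [e1]
        exact hN.add _ _ (hN.left _ _ ih) (hN.neg _ hx)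
    have h3 := hmod n (by omega) s hw
    have h4 : N ((1 - s ^ n) - (1 - s ^ n) ^ 2) := by
      have e1 : (1 - s ^ n) - (1 - s ^ n) ^ 2 = s ^ n - (s ^ n) ^ 2 := by
        simp only [sq, sub_mul, mul_sub, one_mul, mul_one]
        abel
      rw [e1]
      have e2 : s ^ n - (s ^ n) ^ 2 = (s ^ n - s) + (s - s ^ 2) + -((s ^ n - s) * s ^ n)
          + -(s * (s ^ n - s)) := by
        rw [sub_mul, mul_sub, sq, sq]
        abel
      rw [e2]
      exact hN.add _ _ (hN.add _ _ (hN.add _ _ h3 hw) (hN.neg _ (hN.right _ _ h3)))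
        (hN.neg _ (hN.left _ _ h3))
    have h5 := hmod n (by omega) _ h4
    have e3 : 1 - (1 - s ^ n) ^ n - s = -((1 - s ^ n) ^ n - (1 - s ^ n)) + (s ^ n - s) := by abel
    rw [e3]
    exact hN.add _ _ (hN.neg _ h5) h3
  · have e4 : 1 - (1 - s ^ n) ^ n = 1 * s * (s ^ (n - 1) * b) := by
      rw [hb, one_mul, ← mul_assoc, ← pow_succ', ← hn0]
    rw [e4]
    exact kills_mul hN hs _ _
  · rw [hb, ← mul_assoc, ← pow_succ', ← hn0]
  · rw [hb, mul_assoc, ← (hbc s ((Commute.refl s).pow_right n)).eq, ← mul_assoc, ← pow_succ, ← hn0]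

end blocks

section semisimple

/-- a nondegenerate rational trace makes the image semisimple (Jannsen): left ideals have right units -/
theorem exists_unit {R E F : Type} [Ring R] [Algebra ℚ R] [Ring E] [Field F] [CharZero F]
    [Algebra F E] [Module.Finite F E] (φ : R →+* E) (Tr : E →ₗ[F] F) (tr : R →ₗ[ℚ] ℚ)
    (htr : ∀ r, ((tr r : ℚ) : F) = Tr (φ r)) (hnil : ∀ r, IsNilpotent (φ r) → tr r = 0)
    (hD : ∀ x, (∀ y, tr (y * x) = 0) → φ x = 0) (L : Ideal R) :
    ∃ e ∈ L, ∀ x ∈ L, φ (x * e) = φ x := by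
  obtain ⟨b, hbS, hbspan, hbli⟩ := exists_linearIndependent F (Set.range φ)
  have hbfin : Finite b := hbli.finite
  choose r hr using fun i : b => hbS i.2
  let K : Ideal R := RingHom.ker φ
  let f : R →ₗ[ℚ] (b → ℚ) := LinearMap.pi fun i => tr ∘ₗ LinearMap.mulLeft ℚ (r i)
  have hf : ∀ x i, f x i = tr (r i * x) := fun x i => rfl
  have hker : K.restrictScalars ℚ = LinearMap.ker f := by
    ext x
    rw [Submodule.restrictScalars_mem, LinearMap.mem_ker, RingHom.mem_ker]
    constructor
    · intro hx
      funext i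
      rw [hf]
      refine hnil _ ⟨1, ?_⟩
      rw [map_mul, hx, mul_zero, pow_one]
    · intro hx
      refine hD x fun y => ?_
      have h1 : ∀ z ∈ Submodule.span F b, Tr (z * φ x) = 0 := by
        intro z hz
        induction hz using Submodule.span_induction with
        | mem z hz =>
          have h2 := congrFun hx ⟨z, hz⟩
          rw [hf] at h2
          have h3 := htr (r ⟨z, hz⟩ * x)
          rw [h2, map_mul, hr] at h3
          rw [← h3]
          exact Rat.cast_zero
        | zero => rw [zero_mul, map_zero]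
        | add u v _ _ hu hv => rw [add_mul, map_add, hu, hv, add_zero]
        | smul c u _ hu => rw [smul_mul_assoc, map_smul, hu, smul_zero]
      have h4 : φ y ∈ Submodule.span F b := by
        rw [hbspan]
        exact Submodule.subset_span ⟨y, rfl⟩
      have h5 := htr (y * x)
      rw [map_mul φ, h1 _ h4] at h5
      exact_mod_cast h5
  have hfin1 : Module.Finite ℚ (R ⧸ K.restrictScalars ℚ) := by
    refine Module.Finite.of_injective ((K.restrictScalars ℚ).liftQ f hker.le) ?_
    rw [← LinearMap.ker_eq_bot]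
    exact Submodule.ker_liftQ_eq_bot _ _ _ hker.ge
  have hfin2 : Module.Finite ℚ (R ⧸ K) :=
    Module.Finite.equiv (Submodule.Quotient.restrictScalarsEquiv ℚ K)
  have hart : IsArtinianRing (R ⧸ K) := IsArtinianRing.of_finite ℚ (R ⧸ K)
  have hss : IsSemisimpleRing (R ⧸ K) := by
    rw [IsArtinianRing.isSemisimpleRing_iff_jacobson, eq_bot_iff]
    intro x hx
    rw [Submodule.mem_bot]
    obtain ⟨x, rfl⟩ := Ideal.Quotient.mk_surjective x
    rw [Ideal.Quotient.eq_zero_iff_mem, RingHom.mem_ker]
    refine hD x fun y => hnil _ ?_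
    have h1 : Ideal.Quotient.mk K (y * x) ∈ Ring.jacobson (R ⧸ K) := by
      rw [map_mul]
      exact Ideal.mul_mem_left _ _ hx
    obtain ⟨n, hn⟩ : IsNilpotent (Ring.jacobson (R ⧸ K)) := IsSemiprimaryRing.isNilpotent
    have h2 : (Ideal.Quotient.mk K (y * x)) ^ n ∈ (Ring.jacobson (R ⧸ K)) ^ n :=
      Ideal.pow_mem_pow h1 n
    rw [hn, ← map_pow] at h2
    have h3 : Ideal.Quotient.mk K ((y * x) ^ n) = 0 := h2
    rw [Ideal.Quotient.eq_zero_iff_mem, RingHom.mem_ker, map_pow] at h3
    exact ⟨n, h3⟩
  obtain ⟨e', he', hL⟩ := IsSemisimpleRing.ideal_eq_span_idempotent (L.map (Ideal.Quotient.mk K))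
  have h1 : e' ∈ L.map (Ideal.Quotient.mk K) := by
    rw [hL]
    exact Ideal.mem_span_singleton_self e'
  obtain ⟨e, he, rfl⟩ := (Ideal.mem_map_iff_of_surjective _ Ideal.Quotient.mk_surjective).1 h1
  refine ⟨e, he, fun x hx => ?_⟩
  have h2 : Ideal.Quotient.mk K x ∈ L.map (Ideal.Quotient.mk K) := Ideal.mem_map_of_mem _ hx
  rw [hL, Ideal.mem_span_singleton'] at h2
  obtain ⟨a, ha⟩ := h2
  have h3 : Ideal.Quotient.mk K (x * e) = Ideal.Quotient.mk K x := by
    rw [map_mul, ← ha, mul_assoc, he'.eq]
  rw [Ideal.Quotient.eq, RingHom.mem_ker, map_sub, sub_eq_zero] at h3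
  exact h3

end semisimple

theorem sign_sq {n : ℕ} (σ : Equiv.Perm (Fin n)) :
    (Equiv.Perm.sign σ : ℤ) * (Equiv.Perm.sign σ : ℤ) = 1 := by
  rw [← Units.val_mul, Int.units_mul_self]
  rfl

section ring

variable {T : ChowTheory} {X : T.V}

theorem extPow_mul (n : ℕ) (a b : Fin (n + 1) → End X) :
    extPow T.maps X n (fun i => a i * b i) = extPow T.maps X n a * extPow T.maps X n b := by
  induction n with
  | zero => rfl
  | succ n ih =>
    show T.maps.ext _ _ (extPow T.maps X n fun i => a i.castSucc * b i.castSucc) _ = _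
    rw [ih (fun i => a i.castSucc) (fun i => b i.castSucc), T.extMul.mul]
    rfl

theorem perm_alt (d n : ℕ) (ρ : Equiv.Perm (Fin (n + 1))) :
    T.perm X n ρ * alt X d n = (Equiv.Perm.sign ρ : ℤ) ^ (d + 1) • alt X d n := by
  simp only [alt_eq]
  rw [mul_sum, smul_sum]
  refine Fintype.sum_equiv (Equiv.mulLeft ρ) _ _ fun σ => ?_
  rw [Equiv.coe_mulLeft, Equiv.Perm.sign_mul, map_mul, mul_smul_comm, smul_smul]
  congr 1
  rw [Units.val_mul, ← mul_pow, ← mul_assoc, sign_sq, one_mul]

theorem alt_alt (d n : ℕ) :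
    alt X d n * alt X d n = (Nat.factorial (n + 1)) • alt X d n := by
  have h : ∀ σ : Equiv.Perm (Fin (n + 1)),
      (Equiv.Perm.sign σ : ℤ) ^ (d + 1) • T.perm X n σ * alt X d n = alt X d n := by
    intro σ
    rw [smul_mul_assoc, perm_alt, smul_smul, ← mul_pow, sign_sq, one_pow, one_smul]
  have h1 : alt X d n * alt X d n = ∑ σ : Equiv.Perm (Fin (n + 1)),
      (Equiv.Perm.sign σ : ℤ) ^ (d + 1) • T.perm X n σ * alt X d n := by
    rw [← sum_mul]
    rfl
  rw [h1, sum_congr rfl fun σ _ => h σ, sum_const, card_univ, Fintype.card_perm, Fintype.card_fin]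

theorem alt_comm (d n : ℕ) (p : End X) :
    alt X d n * extPow T.maps X n (fun _ => p) = extPow T.maps X n (fun _ => p) * alt X d n := by
  simp only [alt_eq]
  rw [sum_mul, mul_sum]
  refine sum_congr rfl fun σ _ => ?_
  rw [smul_mul_assoc, l_perm_ext, mul_smul_comm]

end ring

section cohomology

variable {T : ChowTheory}

/-- the exterior product with one more factor -/
def kunS (X : T.V) (n : ℕ) (i j : ℕ) (x : T.H (T.pow X n) i) (y : T.H X j) :
    T.H (T.pow X (n + 1)) (i + j) := T.maps.kun (T.pow X n) X i j x y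

theorem kunS_zero_left (X : T.V) (n : ℕ) (i j : ℕ) (y : T.H X j) : kunS X n i j 0 y = 0 := by
  show T.maps.kun (T.pow X n) X i j 0 y = 0
  rw [map_zero]
  rfl

theorem kunS_zero_right (X : T.V) (n : ℕ) (i j : ℕ) (x : T.H (T.pow X n) i) :
    kunS X n i j x 0 = 0 := map_zero (T.maps.kun (T.pow X n) X i j x)

theorem kunS_add_left (X : T.V) (n : ℕ) (i j : ℕ) (x x' : T.H (T.pow X n) i) (y : T.H X j) :
    kunS X n i j (x + x') y = kunS X n i j x y + kunS X n i j x' y := by
  show T.maps.kun (T.pow X n) X i j (x + x') y = _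
  rw [map_add]
  rfl

theorem extPow_kunS {X : T.V} (n : ℕ) (i j : ℕ) (a : Fin (n + 2) → End X)
    (x : T.H (T.pow X n) i) (y : T.H X j) : extPow T.maps X (n + 1) a • kunS X n i j x y
      = kunS X n i j ((extPow T.maps X n fun i => a i.castSucc) • x) (a (Fin.last (n + 1)) • y) :=
  l_kun_act (T.pow X n) X i j _ _ x y

/-- the homology of a power of a pure motive is generated by exterior products -/
theorem spanPow {X : T.V} (d : ℕ) {p : End X} (hp : ∀ j (x : T.H X j), j ≠ d → p • x = 0) (n : ℕ) :
    ∀ (P : ∀ m, T.H (T.pow X n) m → Prop), (∀ m, P m 0) →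
    (∀ m x y, P m x → P m y → P m (x + y)) →
    (∀ x : Fin (n + 1) → T.H X d, P (degPow d n) (kunPow T.maps X d n x)) →
    ∀ m z, P m (extPow T.maps X n (fun _ => p) • z) := by
  induction n with
  | zero =>
    intro P h0 _ hg m z
    by_cases hm : m = d
    · subst hm
      exact hg (fun _ => T.hMap p m z)
    · have h1 : extPow T.maps X 0 (fun _ => p) • z = 0 := hp m z hm
      rw [h1]
      exact h0 m
  | succ n ih =>
    intro P h0 hadd hg
    refine l_kun_span (T.pow X n) X
      (fun m (z : T.H (T.pow X (n + 1)) m) =>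
        P m (extPow T.maps X (n + 1) (fun _ => p) • z)) ?_ ?_ ?_
    · intro m
      show P m (extPow T.maps X (n + 1) (fun _ => p) • (0 : T.H (T.pow X (n + 1)) m))
      rw [smul_zero]
      exact h0 m
    · intro m (x : T.H (T.pow X (n + 1)) m) (y : T.H (T.pow X (n + 1)) m) hx hy
      show P m (extPow T.maps X (n + 1) (fun _ => p) • (x + y))
      rw [smul_add]
      exact hadd m _ _ hx hy
    · intro i j x y
      show P (i + j) (extPow T.maps X (n + 1) (fun _ => p) • kunS X n i j x y)
      rw [extPow_kunS]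
      by_cases hj : j = d
      · subst hj
        refine ih (fun m w => P (m + j) (kunS X n m j w (p • y))) ?_ ?_ ?_ i x
        · intro m
          show P (m + j) (kunS X n m j 0 (p • y))
          rw [kunS_zero_left]
          exact h0 _
        · intro m x x' hx hx'
          show P (m + j) (kunS X n m j (x + x') (p • y))
          rw [kunS_add_left]
          exact hadd _ _ _ hx hx'
        · intro x'
          have h1 := hg (Fin.snoc (α := fun _ => T.H X j) x' (p • y))
          have h2 : kunPow T.maps X j (n + 1) (Fin.snoc (α := fun _ => T.H X j) x' (p • y))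
              = kunS X n (degPow j n) j (kunPow T.maps X j n x') (p • y) := by
            show T.maps.kun (T.pow X n) X (degPow j n) j _ _
              = T.maps.kun (T.pow X n) X (degPow j n) j _ _
            simp only [Fin.snoc_castSucc, Fin.snoc_last]
          rw [h2] at h1
          exact h1
      · have h2 : kunS X n i j ((extPow T.maps X n fun _ => p) • x) (p • y) = 0 := by
          rw [hp j y hj]
          exact kunS_zero_right _ _ _ _ _
        show P (i + j) (kunS X n i j ((extPow T.maps X n fun _ => p) • x) (p • y))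
        rw [h2]
        exact h0 _

/-- the exterior product as a multilinear map -/
def kunMulti (X : T.V) (d : ℕ) : (n : ℕ) →
    MultilinearMap ℚ (fun _ : Fin (n + 1) => T.H X d) (T.H (T.pow X n) (degPow d n))
  | 0 => MultilinearMap.ofSubsingleton ℚ (T.H X d) (T.H X d) (0 : Fin 1) LinearMap.id
  | n + 1 =>
    MultilinearMap.uncurryRight (M := fun _ => T.H X d)
      ((T.maps.kun (T.pow X n) X (degPow d n) d).compMultilinearMap (kunMulti X d n))

theorem kunMulti_apply (X : T.V) (d : ℕ) (n : ℕ) (x : Fin (n + 1) → T.H X d) :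
    kunMulti X d n x = kunPow T.maps X d n x := by
  induction n with
  | zero => rfl
  | succ n ih =>
    show T.maps.kun (T.pow X n) X (degPow d n) d (kunMulti X d n (Fin.init x))
      (x (Fin.last (n + 1))) = _
    rw [ih]
    rfl

theorem alt_kun (X : T.V) (d : ℕ) (n : ℕ) (x : Fin (n + 1) → T.H X d) :
    alt X d n • kunPow T.maps X d n x = (kunMulti X d n).alternatization x := by
  rw [MultilinearMap.alternatization_apply, alt_eq, sum_smul]
  refine Fintype.sum_equiv (Equiv.inv _) _ _ fun σ => ?_
  have h0 : T.perm X n σ • kunPow T.maps X d n x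
      = (Equiv.Perm.sign σ : ℤ) ^ d • kunPow T.maps X d n (fun i => x (σ⁻¹ i)) :=
    l_perm_kun X d n σ x
  rw [MultilinearMap.domDomCongr_apply, kunMulti_apply, smul_assoc, h0, smul_smul]
  rw [← pow_add, Equiv.inv_apply, Equiv.Perm.sign_inv]
  have h : (Equiv.Perm.sign σ : ℤ) ^ (d + 1 + d) = Equiv.Perm.sign σ := by
    have h1 : d + 1 + d = 2 * d + 1 := by omega
    rw [h1, pow_succ, pow_mul, sq, sign_sq, one_pow, one_mul]
  rw [h]
  rfl

/-- the top exterior power of a pure motive acts as zero on homology -/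
theorem alt_hom {X : T.V} (d : ℕ) {p : End X} (hp : ∀ j (x : T.H X j), j ≠ d → p • x = 0) (n : ℕ)
    (hn : Module.finrank ℚ (T.H X d) < n + 1) (m : ℕ) (z : T.H (T.pow X n) m) :
    (alt X d n * extPow T.maps X n fun _ => p) • z = 0 := by
  rw [mul_smul]
  refine spanPow d hp n (fun m w => alt X d n • w = 0) ?_ ?_ ?_ m z
  · intro m
    exact smul_zero _
  · intro m x y hx hy
    show alt X d n • (x + y) = 0
    rw [smul_add, hx, hy, add_zero]
  · intro x
    show alt X d n • kunPow T.maps X d n x = 0
    rw [alt_kun]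
    refine AlternatingMap.map_linearDependent _ _ fun hli => ?_
    have h1 := hli.fintype_card_le_finrank
    rw [Fintype.card_fin] at h1
    omega

end cohomology

section traces

variable {T : ChowTheory} {X : T.V}

/-- the permutation of `Fin (n + 2)` that extends a permutation of `Fin (n + 1)` -/
def lift {n : ℕ} (σ : Equiv.Perm (Fin n)) : Equiv.Perm (Fin (n + 1)) :=
  finSuccEquivLast.symm.permCongr (Equiv.optionCongr σ)

theorem lift_castSucc {n : ℕ} (σ : Equiv.Perm (Fin n)) (i : Fin n) :
    lift σ i.castSucc = (σ i).castSucc := by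
  simp [lift, Equiv.permCongr_apply]

theorem sign_lift {n : ℕ} (σ : Equiv.Perm (Fin n)) :
    Equiv.Perm.sign (lift σ) = Equiv.Perm.sign σ := by
  rw [lift, Equiv.Perm.sign_permCongr, Equiv.optionCongr_sign]

/-- a permutation of `Fin (n + 1)` is a transposition that moves the last element, times a
permutation that fixes it -/
def decomp (n : ℕ) : Option (Fin n) × Equiv.Perm (Fin n) ≃ Equiv.Perm (Fin (n + 1)) :=
  Equiv.Perm.decomposeOption.symm.trans finSuccEquivLast.symm.permCongr

theorem decomp_none (n : ℕ) (σ : Equiv.Perm (Fin n)) : decomp n (none, σ) = lift σ := by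
  rw [decomp, Equiv.trans_apply, Equiv.Perm.decomposeOption_symm_apply]
  simp only
  rw [Equiv.swap_self]
  rfl

theorem decomp_some (n : ℕ) (j : Fin n) (σ : Equiv.Perm (Fin n)) :
    decomp n (some j, σ) = Equiv.swap j.castSucc (Fin.last n) * lift σ := by
  rw [decomp, Equiv.trans_apply, Equiv.Perm.decomposeOption_symm_apply]
  simp only
  refine Equiv.ext fun i => ?_
  simp only [lift, Equiv.permCongr_apply, Equiv.Perm.coe_mul, Function.comp_apply,
    Equiv.symm_symm]
  rw [finSuccEquivLast.symm.injective.map_swap, finSuccEquivLast_symm_none,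
    finSuccEquivLast_symm_some, Equiv.swap_comm]

theorem lift_inv {n : ℕ} (σ : Equiv.Perm (Fin n)) : (lift σ)⁻¹ = lift σ⁻¹ := by
  rw [inv_eq_iff_mul_eq_one]
  refine Equiv.ext fun i => ?_
  refine Fin.lastCases ?_ (fun i => ?_) i
  · simp [lift, Equiv.permCongr_apply]
  · rw [Equiv.Perm.mul_apply, lift_castSucc, lift_castSucc]
    simp

theorem sign_swap_last {n : ℕ} (j : Fin n) :
    Equiv.Perm.sign (Equiv.swap j.castSucc (Fin.last n)) = -1 :=
  Equiv.Perm.sign_swap (Fin.castSucc_lt_last j).ne

/-- the product with one more factor -/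
def extS (X : T.V) (n : ℕ) (b : End X) : End (T.pow X n) →+ End (T.pow X (n + 1)) where
  toFun a := T.maps.ext (T.pow X n) X a b
  map_zero' := by
    have h := T.extAdd.left (T.pow X n) X 0 0 b
    rw [add_zero] at h
    exact left_eq_add.1 h
  map_add' a a' := T.extAdd.left _ _ a a' b

/-- the trace over the last factor -/
def ptrS (X : T.V) (n : ℕ) : End (T.pow X (n + 1)) →+ End (T.pow X n) := T.maps.ptr (T.pow X n) X

theorem ptrS_mul (n : ℕ) (c : End (T.pow X n)) (b : End (T.pow X (n + 1))) :
    ptrS X n (extS X n 1 c * b) = c * ptrS X n b := l_ptr_mul (T.pow X n) X c b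

theorem ptrS_extPow (n : ℕ) (a : Fin (n + 2) → End X) :
    ptrS X n (extPow T.maps X (n + 1) a)
      = T.trace (a (Fin.last (n + 1))) • extPow T.maps X n (fun i => a i.castSucc) :=
  l_ptr_ext (T.pow X n) X _ _

theorem ptrS_swap (n : ℕ) (j : Fin (n + 1)) (a : Fin (n + 2) → End X) :
    ptrS X n (T.perm X (n + 1) (Equiv.swap j.castSucc (Fin.last (n + 1))) *
        extPow T.maps X (n + 1) a)
      = extPow T.maps X n (Function.update (fun i => a i.castSucc) j
          (a (Fin.last (n + 1)) * a j.castSucc)) := l_ptr_swap X n j a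

theorem perm_lift (n : ℕ) (σ : Equiv.Perm (Fin (n + 1))) :
    T.perm X (n + 1) (lift σ) = extS X n 1 (T.perm X n σ) :=
  l_perm_succ X n σ (lift σ) (lift_castSucc _)

theorem alt_inv (d n : ℕ) : alt X d n = ∑ σ : Equiv.Perm (Fin (n + 1)),
    (Equiv.Perm.sign σ : ℤ) ^ (d + 1) • T.perm X n σ⁻¹ := by
  simp only [alt_eq]
  refine Fintype.sum_equiv (Equiv.inv _) _ _ fun σ => ?_
  rw [Equiv.inv_apply, Equiv.Perm.sign_inv, inv_inv]

theorem alt_succ (d n : ℕ) : alt X d (n + 1)
    = extS X n 1 (alt X d n) * (1 + (-1 : ℤ) ^ (d + 1) • ∑ j : Fin (n + 1),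
      T.perm X (n + 1) (Equiv.swap j.castSucc (Fin.last (n + 1)))) := by
  have h2 : extS X n 1 (alt X d n) = ∑ σ : Equiv.Perm (Fin (n + 1)),
      (Equiv.Perm.sign σ : ℤ) ^ (d + 1) • T.perm X (n + 1) (lift σ)⁻¹ := by
    rw [alt_inv, map_sum]
    refine sum_congr rfl fun σ _ => ?_
    rw [map_zsmul, lift_inv, perm_lift]
  rw [alt_inv d (n + 1), ← (decomp (n + 1)).sum_comp, Fintype.sum_prod_type, Fintype.sum_option]
  rw [mul_add, mul_one]
  congr 1
  · rw [h2]
    refine sum_congr rfl fun σ _ => ?_
    rw [decomp_none, sign_lift]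
  · rw [mul_smul_comm, mul_sum, smul_sum]
    refine sum_congr rfl fun j _ => ?_
    rw [h2, sum_mul, smul_sum]
    refine sum_congr rfl fun σ _ => ?_
    rw [decomp_some, Equiv.Perm.sign_mul, sign_swap_last, sign_lift, mul_inv_rev, map_mul,
      Equiv.swap_inv, smul_mul_assoc, smul_smul]
    congr 1
    rw [Units.val_mul, mul_pow]
    rfl

/-- the trace over the last factor of the symmetrised product -/
theorem ptr_alt (d n : ℕ) (a : Fin (n + 2) → End X) :
    ptrS X n (alt X d (n + 1) * extPow T.maps X (n + 1) a)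
      = alt X d n * (T.trace (a (Fin.last (n + 1))) • extPow T.maps X n (fun i => a i.castSucc) +
        (-1 : ℤ) ^ (d + 1) • ∑ j : Fin (n + 1), extPow T.maps X n
          (Function.update (fun i => a i.castSucc) j (a (Fin.last (n + 1)) * a j.castSucc))) := by
  rw [alt_succ, mul_assoc, ptrS_mul, add_mul, one_mul, smul_mul_assoc, sum_mul, map_add,
    map_zsmul, map_sum, ptrS_extPow]
  simp_rw [ptrS_swap]

/-- the trace over all factors but the first -/
def tot (X : T.V) : (n : ℕ) → End (T.pow X n) →+ End X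
  | 0 => AddMonoidHom.id _
  | n + 1 => (tot X n).comp (ptrS X n)

theorem tot_pow {a p : End X} (hp : p * p = p) (hap : a * p = a) (hpa : p * a = a)
    (htr : ∀ k, T.trace (a ^ (k + 1)) = 0) (d n : ℕ) :
    ∀ k : Fin (n + 1) → ℕ, (∀ i, i ≠ 0 → 1 ≤ k i) →
      tot X n (alt X d n * extPow T.maps X n fun i => a ^ k i * p)
        = ((-1 : ℤ) ^ ((d + 1) * n) * (n.factorial : ℤ)) • (a ^ (∑ i, k i) * p) := by
  have hcomm : ∀ k, p * a ^ k = a ^ k * p := by
    intro k
    induction k with
    | zero => simp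
    | succ k ih => rw [pow_succ, ← mul_assoc, ih, mul_assoc, hpa, mul_assoc, hap]
  have hmul : ∀ k l, a ^ k * p * (a ^ l * p) = a ^ (k + l) * p := by
    intro k l
    rw [mul_assoc, ← mul_assoc p, hcomm, mul_assoc, hp, ← mul_assoc, ← pow_add]
  induction n with
  | zero =>
    intro k _
    have h1 : alt X d 0 = 1 := by
      simp only [alt_eq]
      rw [Fintype.sum_eq_single 1]
      · simp
      · intro σ hσ
        exact absurd (Subsingleton.elim (α := Equiv.Perm (Fin 1)) σ 1) hσ
    rw [h1, one_mul]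
    show a ^ k 0 * p = _
    have h2 : ∑ i : Fin (0 + 1), k i = k 0 := Fin.sum_univ_one k
    rw [h2]
    simp
  | succ n ih =>
    intro k hk
    show tot X n (ptrS X n _) = _
    rw [ptr_alt]
    have h1 : T.trace (a ^ k (Fin.last (n + 1)) * p) = 0 := by
      obtain ⟨l, hl⟩ : ∃ l, k (Fin.last (n + 1)) = l + 1 :=
        ⟨k (Fin.last (n + 1)) - 1, by have := hk (Fin.last (n + 1)) (Fin.last_pos.ne'); omega⟩
      rw [hl, pow_succ, mul_assoc, hap, ← pow_succ]
      exact htr l
    rw [h1, zero_smul, zero_add, mul_smul_comm, mul_sum, map_zsmul, map_sum]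
    have h2 : ∀ j : Fin (n + 1), tot X n (alt X d n * extPow T.maps X n
        (Function.update (fun i : Fin (n + 1) => a ^ k i.castSucc * p) j
          (a ^ k (Fin.last (n + 1)) * p * (a ^ k j.castSucc * p))))
        = ((-1 : ℤ) ^ ((d + 1) * n) * (n.factorial : ℤ)) • (a ^ (∑ i, k i) * p) := by
      intro j
      have h3 : (Function.update (fun i : Fin (n + 1) => a ^ k i.castSucc * p) j
          (a ^ k (Fin.last (n + 1)) * p * (a ^ k j.castSucc * p)))
          = fun i => a ^ (Function.update (fun i : Fin (n + 1) => k i.castSucc) j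
            (k (Fin.last (n + 1)) + k j.castSucc) i) * p := by
        funext i
        by_cases hij : i = j
        · subst hij
          rw [Function.update_self, Function.update_self, hmul]
        · rw [Function.update_of_ne hij, Function.update_of_ne hij]
      rw [h3, ih]
      · congr 3
        rw [sum_update_of_mem (mem_univ j), Fin.sum_univ_castSucc k,
          ← add_sum_erase univ (fun i : Fin (n + 1) => k i.castSucc) (mem_univ j), sdiff_singleton_eq_erase]
        ring
      · intro i hi
        by_cases hij : i = j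
        · subst hij
          rw [Function.update_self]
          have := hk (Fin.last (n + 1)) (Fin.last_pos.ne')
          omega
        · rw [Function.update_of_ne hij]
          exact hk _ (by
            intro h0
            exact hi (Fin.castSucc_injective _ (h0.trans (Fin.castSucc_zero).symm)))
    rw [sum_congr rfl fun j _ => h2 j, sum_const, card_univ, Fintype.card_fin, ← natCast_zsmul,
      smul_smul, smul_smul]
    congr 1
    rw [Nat.factorial_succ]
    push_cast
    ring

/-- the vanishing of the power of a numerically trivial endomorphism of `h^d` -/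
theorem pow_mul_eq_zero {a p : End X} (hp : p * p = p) (hap : a * p = a) (hpa : p * a = a)
    (htr : ∀ k, T.trace (a ^ (k + 1)) = 0) (d n : ℕ)
    (hE : alt X d n * extPow T.maps X n (fun _ => p) = 0) : a ^ n * p = 0 := by
  have hcomm : ∀ k, p * a ^ k = a ^ k * p := by
    intro k
    induction k with
    | zero => simp
    | succ k ih => rw [pow_succ, ← mul_assoc, ih, mul_assoc, hpa, mul_assoc, hap]
  have h1 := tot_pow hp hap hpa htr d n (fun i => if i = 0 then 0 else 1)
    (fun i hi => by rw [if_neg hi])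
  have h2 : (extPow T.maps X n fun i => a ^ (if i = 0 then 0 else 1) * p)
      = extPow T.maps X n (fun _ => p) * extPow T.maps X n fun i => a ^ (if i = 0 then 0 else 1) * p := by
    rw [← extPow_mul]
    congr 1
    funext i
    rw [← mul_assoc, hcomm, mul_assoc, hp]
  rw [h2, ← mul_assoc, hE, zero_mul, map_zero] at h1
  have h3 : ∑ i : Fin (n + 1), (if i = 0 then 0 else 1) = n := by
    rw [Fin.sum_univ_succ]
    simp
  rw [h3] at h1
  have h4 : ((((-1 : ℤ) ^ ((d + 1) * n) * (n.factorial : ℤ) : ℤ) : ℚ)) • (a ^ n * p) = 0 := by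
    rw [Int.cast_smul_eq_zsmul]
    exact h1.symm
  refine (smul_eq_zero.1 h4).resolve_left ?_
  exact Int.cast_ne_zero.2
    (mul_ne_zero (pow_ne_zero _ (by norm_num)) (by exact_mod_cast n.factorial_ne_zero))

end traces

section basics2

variable {T : ChowTheory}

theorem homTrivial_zero {X Y : T.V} : HomTrivial (0 : X ⟶ Y) := fun j x => ho_zero j x

theorem homTrivial_add {X Y : T.V} {f g : X ⟶ Y} (hf : HomTrivial f) (hg : HomTrivial g) :
    HomTrivial (f + g) := fun j x => by
  rw [T.hLaws.add, hf, hg, add_zero]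

theorem ho_neg {X Y : T.V} (f : X ⟶ Y) (j : ℕ) (x : T.H X j) : T.ho (-f) j x = - T.ho f j x := by
  have h := T.hLaws.add f (-f) j x
  rw [add_neg_cancel, ho_zero] at h
  exact (neg_eq_of_add_eq_zero_right h.symm).symm

theorem ho_sub {X Y : T.V} (f g : X ⟶ Y) (j : ℕ) (x : T.H X j) :
    T.ho (f - g) j x = T.ho f j x - T.ho g j x := by
  rw [sub_eq_add_neg, T.hLaws.add, ho_neg, sub_eq_add_neg]

theorem homTrivial_neg {X Y : T.V} {f : X ⟶ Y} (hf : HomTrivial f) : HomTrivial (-f) :=
  fun j x => by rw [ho_neg, hf, neg_zero]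

theorem ho_map_zero {X Y : T.V} (f : X ⟶ Y) (j : ℕ) : T.ho f j (0 : T.H X j) = 0 :=
  map_zero (T.hMap f j)

theorem homTrivial_comp_left {X Y Z : T.V} {f : X ⟶ Y} (g : Y ⟶ Z) (hf : HomTrivial f) :
    HomTrivial (f ≫ g) := fun j x => by
  rw [T.hLaws.comp, hf, ho_map_zero]

theorem homTrivial_comp_right {X Y Z : T.V} (f : X ⟶ Y) {g : Y ⟶ Z} (hg : HomTrivial g) :
    HomTrivial (f ≫ g) := fun j x => by
  rw [T.hLaws.comp, hg]

/-- the homologically trivial endomorphisms form an ideal -/
theorem isTwo (M : T.V) : IsTwo (fun a : End M => HomTrivial (T := T) a) where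
  zero := homTrivial_zero
  add _ _ hx hy := homTrivial_add hx hy
  neg _ hx := homTrivial_neg hx
  left a _ hx := homTrivial_comp_left (X := M) (Y := M) (Z := M) a hx
  right a _ hx := homTrivial_comp_right (X := M) (Y := M) (Z := M) a hx

/-- the graded endomorphisms of the cohomology of `M` -/
abbrev GrEnd (M : T.V) : Type := ∀ j : Fin (2 * T.dim M + 1), Module.End ℚ (T.H M j)

/-- the realization of endomorphisms -/
def real (M : T.V) : End M →+* GrEnd M where
  toFun a j := T.hMap a j
  map_one' := by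
    funext j
    exact LinearMap.ext fun x => T.hLaws.id M j x
  map_mul' a b := by
    funext j
    exact LinearMap.ext fun x => T.hLaws.comp b a j x
  map_zero' := by
    funext j
    exact LinearMap.ext fun x => ho_zero j x
  map_add' a b := by
    funext j
    exact LinearMap.ext fun x => T.hLaws.add a b j x

theorem real_apply {M : T.V} (a : End M) (j : Fin (2 * T.dim M + 1)) :
    real M a j = T.hMap a j := rfl

theorem real_eq_zero_iff {M : T.V} (a : End M) : real M a = 0 ↔ HomTrivial (T := T) a := by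
  constructor
  · intro h j x
    by_cases hj : j ≤ 2 * T.dim M
    · have h1 := congrFun h ⟨j, by omega⟩
      exact LinearMap.congr_fun h1 x
    · rw [T.H_top M j (by omega) x]
      exact ho_map_zero a j
  · intro h
    funext j
    exact LinearMap.ext fun x => h j x

/-- the alternating trace -/
noncomputable def trE (M : T.V) : GrEnd M →ₗ[ℚ] ℚ :=
  ∑ j : Fin (2 * T.dim M + 1), (-1 : ℚ) ^ (j : ℕ) •
    (LinearMap.trace ℚ (T.H M j) ∘ₗ LinearMap.proj j)

theorem trE_real {M : T.V} (a : End M) : trE M (real M a) = T.trace a := by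
  rw [trE, LinearMap.sum_apply, ChowData.trace,
    ← Fin.sum_univ_eq_sum_range (fun j => (-1 : ℚ) ^ j * T.trDeg a j) (2 * T.dim M + 1)]
  rfl

/-- the trace as a linear map -/
noncomputable def trQ (M : T.V) : End M →ₗ[ℚ] ℚ :=
  AddMonoidHom.toRatLinearMap
    { toFun := fun a => T.trace a
      map_zero' := by
        rw [← trE_real, map_zero, map_zero]
      map_add' := fun a b => by
        rw [← trE_real, map_add, map_add, trE_real, trE_real] }

theorem trace_nil {M : T.V} {a : End M} (h : IsNilpotent (real M a)) : T.trace a = 0 := by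
  rw [ChowData.trace, sum_eq_zero]
  intro j hj
  rw [mem_range] at hj
  have h2 : IsNilpotent (T.hMap a j) := by
    obtain ⟨n, hn⟩ := h
    exact ⟨n, congrFun hn ⟨j, hj⟩⟩
  rw [ChowData.trDeg, (LinearMap.isNilpotent_trace_of_isNilpotent h2).eq_zero, mul_zero]

theorem trace_hom {M : T.V} {a : End M} (h : HomTrivial (T := T) a) : T.trace a = 0 :=
  trace_nil ⟨1, by rw [pow_one, real_eq_zero_iff]; exact h⟩

/-- every correspondence is regular modulo homologically trivial correspondences -/
theorem regular {M N : T.V} (f : M ⟶ N) : ∃ g : N ⟶ M, HomTrivial (f ≫ g ≫ f - f) := by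
  let L : Ideal (End M) :=
    { carrier := {b | ∃ g : N ⟶ M, b = f ≫ g}
      zero_mem' := ⟨0, by rw [Limits.comp_zero]⟩
      add_mem' := by
        rintro _ _ ⟨g, rfl⟩ ⟨g', rfl⟩
        exact ⟨g + g', by rw [Preadditive.comp_add]⟩
      smul_mem' := by
        rintro a _ ⟨g, rfl⟩
        exact ⟨g ≫ a, (Category.assoc f g a)⟩ }
  obtain ⟨e, ⟨g, rfl⟩, he⟩ := exists_unit (F := ℚ) (real M) (trE M) (trQ M)
    (fun r => by rw [Rat.cast_id]; exact (trE_real r).symm) (fun r hr => trace_nil hr)
    (fun x hx => (real_eq_zero_iff x).2 (T.lefLaws.homNum x fun y => hx y)) L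
  refine ⟨g, T.lefLaws.homNum _ fun k => trace_hom ?_⟩
  rw [← real_eq_zero_iff]
  have h1 := he (f ≫ k) ⟨k, rfl⟩
  rw [← sub_eq_zero, ← map_sub] at h1
  rw [← h1]
  congr 1
  show (f ≫ g ≫ f - f) ≫ k = (f ≫ g) ≫ f ≫ k - f ≫ k
  rw [Preadditive.sub_comp]
  simp only [Category.assoc]

end basics2

section NagataHigman

variable {A : Type} [Ring A] [Algebra ℚ A]

theorem expand (x y : A) (m : ℕ) : ∃ v : ℕ → A,
    (∀ c : ℚ, (x + c • y) ^ m = ∑ k ∈ range (m + 1), c ^ k • v k) ∧
    v 1 = ∑ i ∈ range m, x ^ i * y * x ^ (m - 1 - i) ∧ v 0 = x ^ m := by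
  induction m with
  | zero =>
    refine ⟨fun k => if k = 0 then 1 else 0, fun c => ?_, ?_, ?_⟩
    · simp
    · simp
    · simp
  | succ m ih =>
    obtain ⟨v, h1, h2, h3⟩ := ih
    refine ⟨fun k => (if k ≤ m then v k * x else 0) + if k = 0 then 0 else v (k - 1) * y,
      fun c => ?_, ?_, ?_⟩
    · rw [pow_succ, h1, sum_mul]
      simp_rw [smul_add]
      rw [sum_add_distrib]
      have e1 : ∑ k ∈ range (m + 1 + 1), c ^ k • (if k ≤ m then v k * x else 0)
          = ∑ k ∈ range (m + 1), c ^ k • (v k * x) := by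
        rw [sum_range_succ, if_neg (by omega), smul_zero, add_zero]
        refine sum_congr rfl fun k hk => ?_
        rw [mem_range] at hk
        rw [if_pos (by omega)]
      have e2 : ∑ k ∈ range (m + 1 + 1), c ^ k • (if k = 0 then 0 else v (k - 1) * y)
          = ∑ k ∈ range (m + 1), c ^ (k + 1) • (v k * y) := by
        rw [sum_range_succ', if_pos rfl, smul_zero, add_zero]
        refine sum_congr rfl fun k _ => ?_
        rw [if_neg (by omega), Nat.add_sub_cancel]
      rw [e1, e2, ← sum_add_distrib]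
      refine sum_congr rfl fun k _ => ?_
      rw [mul_add, smul_mul_assoc, smul_mul_assoc, mul_smul_comm, smul_smul, ← pow_succ]
    · simp only [one_ne_zero, if_false, Nat.sub_self]
      rw [h3, sum_range_succ]
      have e3 : (if 1 ≤ m then v 1 * x else 0)
          = ∑ i ∈ range m, x ^ i * y * x ^ (m + 1 - 1 - i) := by
        split_ifs with hm
        · rw [h2, sum_mul]
          refine sum_congr rfl fun i hi => ?_
          rw [mem_range] at hi
          rw [mul_assoc, ← pow_succ]
          congr 2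
          omega
        · have h0 : m = 0 := by omega
          subst h0
          simp
      rw [e3]
      congr 1
      have h4 : m + 1 - 1 - m = 0 := by omega
      rw [h4, pow_zero, mul_one]
    · simp only [Nat.zero_le, if_true, add_zero]
      rw [h3, pow_succ]

theorem coeff_mem (J : Submodule ℚ A) (m : ℕ) (v : ℕ → A)
    (h : ∀ c : ℚ, ∑ k ∈ range (m + 1), c ^ k • v k ∈ J) (k : ℕ) (hk : k ≤ m) : v k ∈ J := by
  rw [← Submodule.Quotient.mk_eq_zero]
  refine (Module.forall_dual_apply_eq_zero_iff ℚ _).1 fun φ => ?_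
  let q : Polynomial ℚ := ∑ k ∈ range (m + 1),
    Polynomial.C (φ (Submodule.Quotient.mk (v k))) * Polynomial.X ^ k
  have hq : q = 0 := by
    refine Polynomial.funext fun c => ?_
    have h1 : (Submodule.Quotient.mk (∑ k ∈ range (m + 1), c ^ k • v k) : A ⧸ J) = 0 :=
      (Submodule.Quotient.mk_eq_zero J).2 (h c)
    have h2 : φ (Submodule.Quotient.mk (∑ k ∈ range (m + 1), c ^ k • v k)) = 0 := by
      rw [h1, map_zero]
    have h3 : (Submodule.Quotient.mk (∑ k ∈ range (m + 1), c ^ k • v k) : A ⧸ J)
        = ∑ k ∈ range (m + 1), c ^ k • (Submodule.Quotient.mk (v k) : A ⧸ J) := by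
      have h4 := map_sum J.mkQ (fun k => c ^ k • v k) (range (m + 1))
      simp only [Submodule.mkQ_apply] at h4
      rw [h4]
      rfl
    rw [h3, map_sum] at h2
    simp only [q, Polynomial.eval_finsetSum, Polynomial.eval_mul, Polynomial.eval_C,
      Polynomial.eval_pow, Polynomial.eval_X, Polynomial.eval_zero]
    rw [← h2]
    refine sum_congr rfl fun k _ => ?_
    rw [map_smul, smul_eq_mul, mul_comm]
  have h5 : q.coeff k = φ (Submodule.Quotient.mk (v k)) := by
    simp only [q, Polynomial.finsetSum_coeff, Polynomial.coeff_C_mul_X_pow]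
    rw [sum_ite_eq, if_pos (mem_range.2 (by omega))]
  rw [← h5, hq, Polynomial.coeff_zero]

/-- the theorem of Nagata and Higman, for a set `N` closed under sums and products -/
theorem nagata_higman (N : A → Prop) (hadd : ∀ x y, N x → N y → N (x + y))
    (hsmul : ∀ (c : ℚ) x, N x → N (c • x)) (hmul : ∀ x y, N x → N y → N (x * y))
    (h0 : N 0) (n : ℕ) :
    ∀ J : Submodule ℚ A, (∀ a x, N a → x ∈ J → a * x ∈ J) → (∀ a x, N a → x ∈ J → x * a ∈ J) →
      (∀ x, N x → x ^ n ∈ J) → ∀ l : List A, (∀ a ∈ l, N a) → 2 ^ n - 1 ≤ l.length →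
      l.prod ∈ J := by
  induction n with
  | zero =>
    intro J hJl _ hJ l hl _
    have h1 := hJ 0 h0
    rw [pow_zero] at h1
    induction l with
    | nil => rwa [List.prod_nil]
    | cons a l ih =>
      rw [List.prod_cons]
      exact hJl _ _ (hl a (by simp)) (ih (fun b hb => hl b (List.mem_cons_of_mem _ hb)) (by simp))
  | succ n ih =>
    intro J hJl hJr hJ l hl' hlen
    have hpow : ∀ x, N x → ∀ k, 0 < k → N (x ^ k) := by
      intro x hx k hk
      obtain ⟨j, rfl⟩ : ∃ j, k = j + 1 := ⟨k - 1, by omega⟩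
      clear hk
      induction j with
      | zero => rwa [zero_add, pow_one]
      | succ j ih => rw [pow_succ]; exact hmul _ _ ih hx
    have hJr' : ∀ x y, N y → x ∈ J → ∀ k, x * y ^ k ∈ J := by
      intro x y hy hx k
      rcases Nat.eq_zero_or_pos k with rfl | hk
      · rwa [pow_zero, mul_one]
      · exact hJr _ _ (hpow y hy k hk) hx
    have hNr : ∀ z y, N z → N y → ∀ k, N (z * y ^ k) := by
      intro z y hz hy k
      rcases Nat.eq_zero_or_pos k with rfl | hk
      · rwa [pow_zero, mul_one]
      · exact hmul _ _ hz (hpow y hy k hk)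
    have hNl : ∀ z y, N z → N y → ∀ k, N (y ^ k * z) := by
      intro z y hz hy k
      rcases Nat.eq_zero_or_pos k with rfl | hk
      · rwa [pow_zero, one_mul]
      · exact hmul _ _ (hpow y hy k hk) hz
    have lin : ∀ x y, N x → N y → ∑ i ∈ range (n + 1), x ^ i * y * x ^ (n - i) ∈ J := by
      intro x y hx hy
      obtain ⟨v, h1, h2, -⟩ := expand x y (n + 1)
      have h3 := coeff_mem J (n + 1) v (fun c => by
        rw [← h1]
        exact hJ _ (hadd _ _ hx (hsmul c y hy))) 1 (by omega)
      rw [h2] at h3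
      exact h3
    have key : ∀ x z y, N x → N z → N y → x ^ n * z * y ^ n ∈ J := by
      intro x z y hx hz hy
      have hS1 : ∑ j ∈ range (n + 1), (∑ i ∈ range (n + 1), x ^ i * (z * y ^ j) * x ^ (n - i)) *
          y ^ (n - j) ∈ J :=
        J.sum_mem fun j _ => hJr' _ _ hy (lin x _ hx (hNr z y hz hy j)) _
      have hS2 : ∑ j ∈ range (n + 1), (∑ i ∈ range (n + 1), x ^ i * (z * y ^ j) * x ^ (n - i)) *
          y ^ (n - j) = ∑ i ∈ range (n + 1), x ^ i * z * ∑ j ∈ range (n + 1),
            y ^ j * x ^ (n - i) * y ^ (n - j) := by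
        simp_rw [sum_mul, mul_sum]
        rw [sum_comm]
        refine sum_congr rfl fun i _ => sum_congr rfl fun j _ => ?_
        simp only [mul_assoc]
      rw [hS2, sum_range_succ] at hS1
      have hS3 : ∑ i ∈ range n, x ^ i * z * ∑ j ∈ range (n + 1),
            y ^ j * x ^ (n - i) * y ^ (n - j) ∈ J := by
        refine J.sum_mem fun i hi => hJl _ _ (hNl z x hz hx i) (lin y _ hy (hpow x hx _ ?_))
        rw [mem_range] at hi
        omega
      have hS4 := (J.add_mem_iff_right hS3).1 hS1
      have hS5 : ∑ j ∈ range (n + 1), y ^ j * x ^ (n - n) * y ^ (n - j)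
          = (n + 1 : ℚ) • y ^ n := by
        have h1 : ∀ j ∈ range (n + 1), y ^ j * x ^ (n - n) * y ^ (n - j) = y ^ n := by
          intro j hj
          rw [mem_range] at hj
          rw [Nat.sub_self, pow_zero, mul_one, ← pow_add]
          congr 1
          omega
        rw [sum_congr rfl h1, sum_const, card_range, ← Nat.cast_smul_eq_nsmul ℚ]
        push_cast
        rfl
      rw [hS5, mul_smul_comm] at hS4
      have h2 := J.smul_mem (n + 1 : ℚ)⁻¹ hS4
      rwa [smul_smul, inv_mul_cancel₀ (by positivity), one_smul] at h2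
    -- the first half of the product
    let J1 : Submodule ℚ A :=
      { carrier := {p | ∀ z y, N z → N y → p * z * y ^ n ∈ J}
        zero_mem' := fun z y _ _ => by
          rw [zero_mul, zero_mul]
          exact J.zero_mem
        add_mem' := fun {p q} hp hq z y hz hy => by
          rw [add_mul, add_mul]
          exact J.add_mem (hp z y hz hy) (hq z y hz hy)
        smul_mem' := fun c p hp z y hz hy => by
          rw [smul_mul_assoc, smul_mul_assoc]
          exact J.smul_mem c (hp z y hz hy) }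
    have hJ1 : ∀ l : List A, (∀ a ∈ l, N a) → 2 ^ n - 1 ≤ l.length → l.prod ∈ J1 := by
      refine ih J1 ?_ ?_ ?_
      · intro a p ha hp z y hz hy
        rw [mul_assoc a, mul_assoc a]
        exact hJl _ _ ha (hp z y hz hy)
      · intro a p ha hp z y hz hy
        rw [mul_assoc p]
        exact hp _ _ (hmul a z ha hz) hy
      · intro x hx z y hz hy
        exact key x z y hx hz hy
    have hpos : 0 < 2 ^ n := by positivity
    have hlen' : 2 ^ n - 1 + 1 + (2 ^ n - 1) ≤ l.length := by
      rw [pow_succ] at hlen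
      omega
    obtain ⟨l1, z, l2, rfl, h1, h2⟩ : ∃ (l1 : List A) (z : A) (l2 : List A), l = l1 ++ z :: l2 ∧
        2 ^ n - 1 ≤ l1.length ∧ 2 ^ n - 1 ≤ l2.length := by
      refine ⟨l.take (2 ^ n - 1), l[2 ^ n - 1]'(by omega), l.drop (2 ^ n - 1 + 1), ?_, ?_, ?_⟩
      · rw [← List.drop_eq_getElem_cons, List.take_append_drop]
      · rw [List.length_take]
        omega
      · rw [List.length_drop]
        omega
    have hN1 : ∀ a ∈ l1, N a := fun a ha => hl' a (List.mem_append_left _ ha)
    have hNz : N z := hl' z (by simp)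
    have hN2 : ∀ a ∈ l2, N a := fun a ha =>
      hl' a (List.mem_append_right _ (List.mem_cons_of_mem _ ha))
    have hP := hJ1 l1 hN1 h1
    let J2 : Submodule ℚ A :=
      { carrier := {q | ∀ z, N z → l1.prod * z * q ∈ J}
        zero_mem' := fun z _ => by
          rw [mul_zero]
          exact J.zero_mem
        add_mem' := fun {p q} hp hq z hz => by
          rw [mul_add]
          exact J.add_mem (hp z hz) (hq z hz)
        smul_mem' := fun c p hp z hz => by
          rw [mul_smul_comm]
          exact J.smul_mem c (hp z hz) }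
    have hJ2 : l2.prod ∈ J2 := by
      refine ih J2 ?_ ?_ ?_ l2 hN2 h2
      · intro a p ha hp z hz
        rw [← mul_assoc, mul_assoc l1.prod]
        exact hp _ (hmul z a hz ha)
      · intro a p ha hp z hz
        rw [← mul_assoc]
        exact hJr _ _ ha (hp z hz)
      · intro y hy z hz
        exact hP z y hz hy
    rw [List.prod_append, List.prod_cons, ← mul_assoc]
    exact hJ2 z hNz

end NagataHigman

section corners

variable {T : ChowTheory}

theorem mul_map_prod {R : Type} [Ring R] {q : R} (hq : q * q = q) (l : List R) :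
    q * (l.map (fun a => a * q)).prod = (l.map (fun a => q * a * q)).prod * q := by
  induction l with
  | nil => simp
  | cons a l ih =>
    rw [List.map_cons, List.prod_cons, List.map_cons, List.prod_cons, mul_assoc (q * a * q), ← ih]
    have h1 : q * a * q * (q * (l.map (fun a => a * q)).prod)
        = q * a * (q * q) * (l.map (fun a => a * q)).prod := by simp only [mul_assoc]
    rw [h1, hq]
    simp only [mul_assoc]

/-- if an exterior or symmetric power of the motive cut out by `p` vanishes, products of many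
homologically trivial endomorphisms of it vanish -/
theorem kills_of_alt {M : T.V} {p : End M} (hp : p * p = p) {d n : ℕ}
    (h : alt M d n * extPow T.maps M n (fun _ => p) = 0) :
    Kills (fun a : End M => HomTrivial (T := T) a) p (2 ^ n - 1) := by
  intro l hl hlen
  rw [mul_map_prod hp]
  have hN := isTwo (T := T) M
  let J : Submodule ℚ (End M) :=
    { carrier := {x | x * p = 0}
      zero_mem' := zero_mul p
      add_mem' := fun {x y} hx hy => by
        have h1 : x * p = 0 := hx
        have h2 : y * p = 0 := hy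
        show (x + y) * p = 0
        rw [add_mul, h1, h2, add_zero]
      smul_mem' := fun c x hx => by
        have h1 : x * p = 0 := hx
        show (c • x) * p = 0
        rw [smul_mul_assoc, h1, smul_zero] }
  have h1 := nagata_higman (A := End M)
    (fun a => HomTrivial (T := T) a ∧ p * a = a ∧ a * p = a) ?_ ?_ ?_ ?_ n J ?_ ?_ ?_
    (l.map (fun a => p * a * p)) ?_ ?_
  · exact h1
  · rintro x y ⟨h1, h2, h3⟩ ⟨h4, h5, h6⟩
    exact ⟨hN.add _ _ h1 h4, by rw [mul_add, h2, h5], by rw [add_mul, h3, h6]⟩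
  · rintro c x ⟨h1, h2, h3⟩
    refine ⟨?_, by rw [mul_smul_comm, h2], by rw [smul_mul_assoc, h3]⟩
    have h4 : c • x = (c • (1 : End M)) * x := by rw [smul_mul_assoc, one_mul]
    rw [h4]
    exact hN.left _ _ h1
  · rintro x y ⟨h1, h2, h3⟩ ⟨h4, h5, h6⟩
    exact ⟨hN.right _ _ h1, by rw [← mul_assoc, h2], by rw [mul_assoc, h6]⟩
  · exact ⟨hN.zero, mul_zero p, zero_mul p⟩
  · rintro a x - hx
    have h1 : x * p = 0 := hx
    show a * x * p = 0
    rw [mul_assoc, h1, mul_zero]
  · rintro a x ⟨-, h2, h3⟩ hx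
    have h1 : x * p = 0 := hx
    show x * a * p = 0
    rw [mul_assoc, h3, ← h2, ← mul_assoc, h1, zero_mul]
  · rintro x ⟨h1, h2, h3⟩
    refine pow_mul_eq_zero hp h3 h2 (fun k => trace_hom ?_) d n h
    rw [pow_succ]
    exact hN.left _ _ h1
  · intro a ha
    obtain ⟨b, hb, rfl⟩ := List.mem_map.1 ha
    refine ⟨hN.right _ _ (hN.left _ _ (hl b hb)), ?_, ?_⟩
    · rw [← mul_assoc, ← mul_assoc, hp]
    · rw [mul_assoc, hp]
  · rwa [List.length_map]

/-- the top exterior power of a pure motive vanishes if the power has no phantoms -/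
theorem alt_eq_zero {M : T.V} {p : End M} (hp : p * p = p) (d : ℕ)
    (hd : ∀ j (x : T.H M j), j ≠ d → p • x = 0)
    (hP : ∀ e : End (T.pow M (Module.finrank ℚ (T.H M d))), e * e = e → HomTrivial (T := T) e →
      extPow T.maps M (Module.finrank ℚ (T.H M d)) (fun _ => p) * e = e →
      e * extPow T.maps M (Module.finrank ℚ (T.H M d)) (fun _ => p) = e → e = 0) :
    alt M d (Module.finrank ℚ (T.H M d)) *
      extPow T.maps M (Module.finrank ℚ (T.H M d)) (fun _ => p) = 0 := by
  set n := Module.finrank ℚ (T.H M d) with hn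
  set E := alt M d n * extPow T.maps M n (fun _ => p) with hE
  have hPP : extPow T.maps M n (fun _ => p) * extPow T.maps M n (fun _ => p)
      = extPow T.maps M n (fun _ => p) := by
    rw [← extPow_mul]
    congr 1
    funext _
    exact hp
  have hEE : E * E = (Nat.factorial (n + 1)) • E := by
    calc E * E = alt M d n * (extPow T.maps M n (fun _ => p) * alt M d n) *
          extPow T.maps M n (fun _ => p) := by simp only [hE, mul_assoc]
      _ = alt M d n * alt M d n * (extPow T.maps M n (fun _ => p) *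
          extPow T.maps M n (fun _ => p)) := by rw [← alt_comm]; simp only [mul_assoc]
      _ = (Nat.factorial (n + 1)) • E := by rw [hPP, alt_alt, smul_mul_assoc]
  have hc : ((Nat.factorial (n + 1) : ℕ) : ℚ) ≠ 0 := by exact_mod_cast (n + 1).factorial_ne_zero
  have h2 : ((Nat.factorial (n + 1) : ℕ) : ℚ)⁻¹ • E = 0 := by
    refine hP _ ?_ ?_ ?_ ?_
    · rw [smul_mul_smul_comm, hEE, ← Nat.cast_smul_eq_nsmul ℚ, smul_smul]
      congr 1
      rw [mul_assoc, inv_mul_cancel₀ hc, mul_one]
    · intro j z
      have h1 : ((Nat.factorial (n + 1) : ℕ) : ℚ)⁻¹ • E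
          = (((Nat.factorial (n + 1) : ℕ) : ℚ)⁻¹ • (1 : End (T.pow M n))) * E := by
        rw [smul_mul_assoc, one_mul]
      rw [h1, ho_def, mul_smul, hE, alt_hom d hd n (by omega), smul_zero]
    · rw [mul_smul_comm, hE, alt_comm, ← mul_assoc, hPP]
    · rw [smul_mul_assoc, hE, mul_assoc, hPP]
  exact (smul_eq_zero.1 h2).resolve_left (inv_ne_zero hc)

end corners

section seq

/-- lifting a sequence of orthogonal idempotents -/
theorem lift_seq {R S : Type} [Ring R] [Ring S] (φ : R →+* S) {N : R → Prop} (hN : IsTwo N)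
    (hφ : ∀ a, N a ↔ φ a = 0) (a : ℕ → R) (ha : ∀ i, ∃ k, Kills N (a i) k)
    (h1 : ∀ i, φ (a i) * φ (a i) = φ (a i)) (h2 : ∀ i j, i ≠ j → φ (a i) * φ (a j) = 0) (m : ℕ) :
    ∃ e : ℕ → R, (∀ i, i < m → e i * e i = e i) ∧
      (∀ i j, i < m → j < m → i ≠ j → e i * e j = 0) ∧
      (∀ i, i < m → φ (e i) = φ (a i)) ∧ ∀ i, i < m → ∃ k, Kills N (e i) k := by
  induction m with
  | zero =>
    exact ⟨fun _ => 0, fun i hi => by omega, fun i j hi => by omega, fun i hi => by omega,
      fun i hi => by omega⟩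
  | succ m ih =>
    obtain ⟨e, g1, g2, g3, g4⟩ := ih
    set σ := ∑ i ∈ range m, e i with hσ
    have hl : ∀ i, i < m → e i * σ = e i := by
      intro i hi
      rw [hσ, mul_sum, sum_eq_single i, g1 i hi]
      · intro j hj hji
        exact g2 i j hi (mem_range.1 hj) (Ne.symm hji)
      · intro hi'
        exact absurd (mem_range.2 hi) hi'
    have hr : ∀ i, i < m → σ * e i = e i := by
      intro i hi
      rw [hσ, sum_mul, sum_eq_single i, g1 i hi]
      · intro j hj hji
        exact g2 j i (mem_range.1 hj) hi hji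
      · intro hi'
        exact absurd (mem_range.2 hi) hi'
    have hσσ : σ * σ = σ := by
      conv_lhs => rw [hσ, sum_mul]
      rw [sum_congr rfl fun i hi => hl i (mem_range.1 hi), ← hσ]
    obtain ⟨k, hk⟩ := ha m
    have hk' := kills_mul hN hk (1 - σ) (1 - σ)
    have hφσ : φ σ = ∑ i ∈ range m, φ (a i) := by
      rw [hσ, map_sum]
      exact sum_congr rfl fun i hi => g3 i (mem_range.1 hi)
    have hs1 : φ σ * φ (a m) = 0 := by
      rw [hφσ, sum_mul]
      exact sum_eq_zero fun i hi => h2 i m (mem_range.1 hi).ne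
    have hs2 : φ (a m) * φ σ = 0 := by
      rw [hφσ, mul_sum]
      exact sum_eq_zero fun i hi => h2 m i (mem_range.1 hi).ne'
    have hs : φ ((1 - σ) * a m * (1 - σ)) = φ (a m) := by
      rw [map_mul, map_mul, map_sub, map_one, sub_mul, one_mul, hs1, sub_zero, mul_sub, mul_one,
        hs2, sub_zero]
    obtain ⟨e', f1, f2, f3, b, f4, f5⟩ := lift_idem hN hk' (by
      rw [hφ, map_sub, map_pow, hs, sq, h1, sub_self])
    have f6 : φ e' = φ (a m) := by
      rw [hφ, map_sub, hs, sub_eq_zero] at f2
      exact f2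
    have z1 : σ * (1 - σ) = 0 := by rw [mul_sub, mul_one, hσσ, sub_self]
    have z2 : (1 - σ) * σ = 0 := by rw [sub_mul, one_mul, hσσ, sub_self]
    have f7 : ∀ i, i < m → e i * e' = 0 := by
      intro i hi
      have h3 : σ * e' = 0 := by
        rw [f4, ← mul_assoc, ← mul_assoc, ← mul_assoc, z1]
        simp
      rw [← hl i hi, mul_assoc, h3, mul_zero]
    have f8 : ∀ i, i < m → e' * e i = 0 := by
      intro i hi
      have h3 : e' * σ = 0 := by
        rw [f5, mul_assoc, mul_assoc ((1 - σ) * a m), z2]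
        simp
      rw [← hr i hi, ← mul_assoc, h3, zero_mul]
    have u1 : ∀ i, i < m → Function.update e m e' i = e i := by
      intro i hi
      rw [Function.update_of_ne hi.ne]
    have u2 : Function.update e m e' m = e' := Function.update_self m e' e
    have lt : ∀ i, i < m + 1 → i < m ∨ i = m := fun i hi => by omega
    refine ⟨Function.update e m e', ?_, ?_, ?_, ?_⟩
    · intro i hi
      rcases lt i hi with hi | rfl
      · rw [u1 i hi, g1 i hi]
      · rw [u2, f1]
    · intro i j hi hj hij
      rcases lt i hi with hi | rfl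
      · rcases lt j hj with hj | rfl
        · rw [u1 i hi, u1 j hj, g2 i j hi hj hij]
        · rw [u1 i hi, u2, f7 i hi]
      · rcases lt j hj with hj | rfl
        · rw [u2, u1 j hj, f8 j hj]
        · exact absurd rfl hij
    · intro i hi
      rcases lt i hi with hi | rfl
      · rw [u1 i hi, g3 i hi]
      · rw [u2, f6]
    · intro i hi
      rcases lt i hi with hi | rfl
      · rw [u1 i hi]
        exact g4 i hi
      · rw [u2]
        exact ⟨k, f3⟩

end seq

section induction

variable {T : ChowTheory}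

/-- the homologically trivial self-correspondences of `X` form a nilpotent ideal -/
def NilAt (X : T.V) : Prop := ∃ k, Kills (fun a : End X => HomTrivial (T := T) a) (1 : End X) k

/-- `a` acts on the cohomology of `X` as the projection to degree `j` -/
def IsProj (X : T.V) (j : ℕ) (a : End X) : Prop :=
  (∀ x : T.H X j, a • x = x) ∧ ∀ i (x : T.H X i), i ≠ j → a • x = 0

theorem kills_comp {X Y : T.V} {ρ : End Y} {k : ℕ}
    (h : Kills (fun a : End Y => HomTrivial (T := T) a) ρ k) (f : X ⟶ Y) (g : Y ⟶ X)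
    (q : End X) (hq : q = f ≫ ρ ≫ g) :
    Kills (fun a : End X => HomTrivial (T := T) a) q k := by
  intro l hl hlen
  have key : ∀ l : List (End X), q * (l.map (fun a => a * q)).prod
      = f ≫ (ρ * ((l.map (fun a => (g ≫ a ≫ f : Y ⟶ Y))).map
        (fun a : End Y => a * ρ)).prod : End Y) ≫ g := by
    intro l
    induction l with
    | nil =>
      rw [List.map_nil, List.map_nil, List.map_nil, List.prod_nil, List.prod_nil, mul_one, mul_one]
      exact hq
    | cons a l ih =>
      rw [List.map_cons, List.prod_cons, List.map_cons, List.map_cons, List.prod_cons]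
      have e1 : ∀ (q P : End X), q * (a * q * P) = (q * a) * (q * P) := by
        intro q P
        simp only [mul_assoc]
      rw [e1, ih]
      have e2 : ∀ (b P : End Y), ρ * (b * ρ * P) = (ρ * b) * (ρ * P) := by
        intro b P
        simp only [mul_assoc]
      rw [e2]
      simp only [End.mul_def, Category.assoc, hq]
  rw [key, h, Limits.zero_comp, Limits.comp_zero]
  · intro a ha
    obtain ⟨b, hb, rfl⟩ := List.mem_map.1 ha
    exact homTrivial_comp_right _ (homTrivial_comp_left _ (hl b hb))
  · rwa [List.length_map]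

theorem kills_of_nilAt {X : T.V} (h : NilAt X) (ρ : End X) :
    ∃ k, Kills (fun a : End X => HomTrivial (T := T) a) ρ k := by
  obtain ⟨k, hk⟩ := h
  refine ⟨k, ?_⟩
  have h1 := kills_mul (isTwo X) hk ρ 1
  rwa [mul_one, mul_one] at h1

theorem isNilpotent_of_nilAt {X : T.V} (h : NilAt X) {a : End X} (ha : HomTrivial (T := T) a) :
    IsNilpotent a := by
  obtain ⟨k, hk⟩ := h
  refine ⟨k, ?_⟩
  have h1 := hk (List.replicate k a) (fun b hb => by rw [List.eq_of_mem_replicate hb]; exact ha)
    (by rw [List.length_replicate])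
  rwa [List.map_replicate, List.prod_replicate, mul_one, one_mul] at h1

/-- a Kuenneth projector from a map that is injective in degree `j` -/
theorem proj_of_injective {X Y : T.V} (f : X ⟶ Y) {j : ℕ} {ρ : End Y}
    (hρ : IsProj Y j ρ) (hf : Function.Injective (T.ho f j)) :
    ∃ g : Y ⟶ X, IsProj X j (f ≫ ρ ≫ g : X ⟶ X) := by
  obtain ⟨s, hs⟩ := regular (f ≫ ρ)
  refine ⟨s, ?_, ?_⟩
  · intro x
    rw [← ho_def]
    have h1 := hs j x
    rw [ho_sub, sub_eq_zero] at h1
    simp only [T.hLaws.comp] at h1 ⊢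
    have h2 : ∀ y, T.ho ρ j y = y := hρ.1
    rw [h2, h2] at h1
    rw [h2]
    exact hf h1
  · intro i x hi
    rw [← ho_def]
    simp only [T.hLaws.comp]
    have h2 : ∀ y, T.ho ρ i y = 0 := fun y => hρ.2 i y hi
    rw [h2, ho_map_zero]

theorem homTrivial_sub_of_isProj {X : T.V} {j : ℕ} {a b : End X} (ha : IsProj X j a)
    (hb : IsProj X j b) : HomTrivial (a - b : X ⟶ X) := fun i x => by
  rw [ho_sub, sub_eq_zero]
  by_cases hi : i = j
  · subst hi
    exact (ha.1 x).trans (hb.1 x).symm
  · exact (ha.2 i x hi).trans (hb.2 i x hi).symm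

theorem isProj_of_isCK {X : T.V} {π : ℕ → End X} (h : IsCK T X π) (j : ℕ) : IsProj X j (π j) :=
  ⟨h.act j, fun i x hi => h.act_ne j i x hi⟩

/-! ### the transpose -/

theorem homTrivial_tr {X : T.V} {a : End X} (ha : HomTrivial (T := T) a) :
    HomTrivial (T := T) (X := X) (Y := X) (T.tr X a) := by
  intro j y
  refine T.pair_nondeg X j _ fun i x _ => ?_
  rw [ho_def, ← T.pair_act]
  have h1 : a • x = 0 := ha i x
  rw [h1, T.pair_zero_left]

theorem isProj_tr {X : T.V} {a : End X} {j : ℕ} (hj : j ≤ 2 * T.dim X) (ha : IsProj X j a) :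
    IsProj X (2 * T.dim X - j) (T.tr X a) := by
  constructor
  · intro x
    rw [← sub_eq_zero]
    refine T.pair_nondeg X _ _ fun i' y hi' => ?_
    obtain rfl : i' = j := by omega
    rw [T.pair_sub_right, ← T.pair_act, ha.1, sub_self]
  · intro i x hi
    refine T.pair_nondeg X _ _ fun i' y hi' => ?_
    rw [← T.pair_act, ha.2 i' y (by omega), T.pair_zero_left]

theorem kills_tr {X : T.V} {a : End X} {k : ℕ}
    (h : Kills (fun a : End X => HomTrivial (T := T) a) a k) :
    Kills (fun a : End X => HomTrivial (T := T) a) (T.tr X a) k := by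
  have snoc : ∀ (q b : End X) (l : List (End X)), q * ((l ++ [b]).map (fun c => c * q)).prod
      = q * (l.map (fun c => c * q)).prod * b * q := by
    intro q b l
    rw [List.map_append, List.prod_append, List.map_singleton, List.prod_singleton]
    simp only [mul_assoc]
  have key : ∀ (q : End X) (l : List (End X)), T.tr X (q * (l.map (fun c => c * q)).prod)
      = T.tr X q * ((l.map (T.tr X)).reverse.map (fun c => c * T.tr X q)).prod := by
    intro q l
    induction l with
    | nil =>
      rw [List.map_nil, List.prod_nil, mul_one, List.map_nil, List.reverse_nil, List.map_nil,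
        List.prod_nil, mul_one]
    | cons b l ih =>
      rw [List.map_cons (f := T.tr X), List.reverse_cons, snoc, ← ih, List.map_cons, List.prod_cons]
      rw [← T.tr_mul, ← T.tr_mul]
      congr 1
      simp only [mul_assoc]
  intro l hl hlen
  have h1 := key (T.tr X a) l
  rw [T.tr_tr] at h1
  rw [← T.tr_tr X (T.tr X a * _), h1, h, tr_zero]
  · intro b hb
    rw [List.mem_reverse] at hb
    obtain ⟨c, hc, rfl⟩ := List.mem_map.1 hb
    exact homTrivial_tr (hl c hc)
  · rwa [List.length_reverse, List.length_map]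

theorem sum_smul' {ι : Type} {X : T.V} (s : Finset ι) (f : ι → End X) (j : ℕ) (x : T.H X j) :
    (∑ i ∈ s, f i) • x = ∑ i ∈ s, f i • x := sum_smul

/-- A variety with Kuenneth projectors in all degrees but the middle one, which are killed, has a
Chow-Kuenneth decomposition. -/
theorem ck_of_projectors {X : T.V} (h : ∀ j, j ≤ 2 * T.dim X → j ≠ T.dim X → ∃ a : End X,
      IsProj X j a ∧ ∃ k, Kills (fun a : End X => HomTrivial (T := T) a) a k) :
    ∃ π : ℕ → End X, IsCK T X π ∧ ∀ j, j ≠ T.dim X →
      ∃ k, Kills (fun a : End X => HomTrivial (T := T) a) (π j) k := by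
  classical
  set n := T.dim X with hn
  have h' : ∀ j, ∃ a : End X, (∃ k, Kills (fun a : End X => HomTrivial (T := T) a) a k) ∧
      (j ≤ 2 * n → j ≠ n → IsProj X j a) ∧ (¬ (j ≤ 2 * n ∧ j ≠ n) → a = 0) := by
    intro j
    by_cases hj : j ≤ 2 * n ∧ j ≠ n
    · obtain ⟨a, h1, h2⟩ := h j hj.1 hj.2
      exact ⟨a, h2, fun _ _ => h1, fun h3 => absurd hj h3⟩
    · exact ⟨0, ⟨0, kills_zero _⟩, fun h1 h2 => absurd ⟨h1, h2⟩ hj, fun _ => rfl⟩
  choose a ha1 ha2 ha3 using h'
  have hN := isTwo (T := T) X
  -- the action of `a`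
  have act : ∀ j, j ≤ 2 * n → j ≠ n → ∀ i (x : T.H X i), a j • x = if i = j then x else 0 := by
    intro j h1 h2 i x
    split_ifs with hij
    · subst hij
      exact (ha2 i h1 h2).1 x
    · exact (ha2 j h1 h2).2 i x hij
  have act0 : ∀ j, ¬ (j ≤ 2 * n ∧ j ≠ n) → ∀ i (x : T.H X i), a j • x = 0 := by
    intro j h1 i x
    rw [ha3 j h1, zero_smul]
  have hreal : ∀ b c : End X, (∀ i (x : T.H X i), b • x = c • x) → real X b = real X c := by
    intro b c hbc
    funext j
    exact LinearMap.ext fun x => hbc j x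
  have hreal' : ∀ b c : End X, real X b = real X c → ∀ i (x : T.H X i), b • x = c • x := by
    intro b c hbc i x
    by_cases hi : i ≤ 2 * T.dim X
    · exact LinearMap.congr_fun (congrFun hbc ⟨i, by omega⟩) x
    · rw [T.H_top X i (by omega) x, smul_zero, smul_zero]
  obtain ⟨e, e1, e2, e3, e4⟩ := lift_seq (real X) hN (fun a => (real_eq_zero_iff a).symm) a ha1
    (by
      intro i
      rw [← map_mul]
      refine hreal _ _ fun l x => ?_
      rw [mul_smul]
      by_cases hi : i ≤ 2 * n ∧ i ≠ n
      · by_cases hl : l = i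
        · have h3 : a i • x = x := by rw [act i hi.1 hi.2, if_pos hl]
          rw [h3, h3]
        · have h3 : a i • x = 0 := by rw [act i hi.1 hi.2, if_neg hl]
          rw [h3, smul_zero]
      · have h3 : a i • x = 0 := act0 i hi l x
        rw [h3, smul_zero])
    (by
      intro i j hij
      rw [← map_mul, ← map_zero (real X)]
      refine hreal _ _ fun l x => ?_
      rw [mul_smul, zero_smul]
      by_cases hj : j ≤ 2 * n ∧ j ≠ n
      · rw [act j hj.1 hj.2]
        split_ifs with h1
        · by_cases hi : i ≤ 2 * n ∧ i ≠ n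
          · rw [act i hi.1 hi.2, if_neg (by omega)]
          · rw [act0 i hi]
        · rw [smul_zero]
      · rw [act0 j hj, smul_zero]) (2 * n + 1)
  have eact : ∀ j, j ≤ 2 * n → j ≠ n → ∀ i (x : T.H X i), e j • x = if i = j then x else 0 := by
    intro j h1 h2 i x
    rw [hreal' _ _ (e3 j (by omega)) i x, act j h1 h2]
  set S := (range (2 * n + 1)).erase n with hS
  have hmS : ∀ j, j ∈ S ↔ j ≤ 2 * n ∧ j ≠ n := by
    intro j
    rw [hS, mem_erase, mem_range]
    omega
  set σ := ∑ j ∈ S, e j with hσ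
  have hl : ∀ i ∈ S, e i * σ = e i := by
    intro i hi
    have hi' := (hmS i).1 hi
    rw [hσ, mul_sum, sum_eq_single i, e1 i (by omega)]
    · intro j hj hji
      have hj' := (hmS j).1 hj
      exact e2 i j (by omega) (by omega) (Ne.symm hji)
    · intro h1
      exact absurd hi h1
  have hr : ∀ i ∈ S, σ * e i = e i := by
    intro i hi
    have hi' := (hmS i).1 hi
    rw [hσ, sum_mul, sum_eq_single i, e1 i (by omega)]
    · intro j hj hji
      have hj' := (hmS j).1 hj
      exact e2 j i (by omega) (by omega) hji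
    · intro h1
      exact absurd hi h1
  have hσσ : σ * σ = σ := by
    conv_lhs => rw [hσ, sum_mul]
    rw [sum_congr rfl fun i hi => hl i hi, ← hσ]
  have hσn : ∀ x : T.H X n, σ • x = 0 := by
    intro x
    rw [hσ, sum_smul', sum_eq_zero]
    intro j hj
    have hj' := (hmS j).1 hj
    rw [eact j hj'.1 hj'.2, if_neg (Ne.symm hj'.2)]
  have hσi : ∀ i (x : T.H X i), i ≠ n → σ • x = x := by
    intro i x hi
    by_cases hi' : i ≤ 2 * n
    · rw [hσ, sum_smul', sum_eq_single i]
      · rw [eact i hi' hi, if_pos rfl]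
      · intro j hj hji
        have hj' := (hmS j).1 hj
        rw [eact j hj'.1 hj'.2, if_neg (Ne.symm hji)]
      · intro h1
        exact absurd ((hmS i).2 ⟨hi', hi⟩) h1
    · rw [T.H_top X i (by omega) x, smul_zero]
  -- the decomposition
  set π : ℕ → End X := fun j => if j = n then 1 - σ else if j ∈ S then e j else 0 with hπ
  have π1 : π n = 1 - σ := by
    rw [hπ]
    exact if_pos rfl
  have π2 : ∀ j, j ∈ S → π j = e j := by
    intro j hj
    have hj' := (hmS j).1 hj
    rw [hπ]
    show (if j = n then 1 - σ else if j ∈ S then e j else 0) = e j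
    rw [if_neg hj'.2, if_pos hj]
  have π3 : ∀ j, j ≠ n → j ∉ S → π j = 0 := by
    intro j hj hj'
    rw [hπ]
    show (if j = n then 1 - σ else if j ∈ S then e j else 0) = 0
    rw [if_neg hj, if_neg hj']
  have cases3 : ∀ j, j = n ∨ j ∈ S ∨ (j ≠ n ∧ j ∉ S) := by
    intro j
    by_cases h1 : j = n
    · exact Or.inl h1
    · by_cases h2 : j ∈ S
      · exact Or.inr (Or.inl h2)
      · exact Or.inr (Or.inr ⟨h1, h2⟩)
  refine ⟨π, mkCK ?_ ?_ ?_ ?_ ?_ ?_, ?_⟩
  · intro i
    rcases cases3 i with rfl | hi | ⟨hi, hi'⟩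
    · rw [π1, mul_sub, mul_one, sub_mul, one_mul, hσσ, sub_self, sub_zero]
    · have hi' := (hmS i).1 hi
      rw [π2 i hi, e1 i (by omega)]
    · rw [π3 i hi hi', mul_zero]
  · intro i j hij
    rcases cases3 i with rfl | hi | ⟨hi, hi'⟩
    · rcases cases3 j with rfl | hj | ⟨hj, hj'⟩
      · exact absurd rfl hij
      · rw [π1, π2 j hj, sub_mul, one_mul, hr j hj, sub_self]
      · rw [π3 j hj hj', mul_zero]
    · rcases cases3 j with rfl | hj | ⟨hj, hj'⟩
      · rw [π1, π2 i hi, mul_sub, mul_one, hl i hi, sub_self]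
      · have hi' := (hmS i).1 hi
        have hj' := (hmS j).1 hj
        rw [π2 i hi, π2 j hj, e2 i j (by omega) (by omega) hij]
      · rw [π3 j hj hj', mul_zero]
    · rw [π3 i hi hi', zero_mul]
  · rw [← hn, ← add_sum_erase (range (2 * n + 1)) π (mem_range.2 (by omega : n < 2 * n + 1)), π1,
      ← hS, sum_congr rfl fun j hj => π2 j hj, ← hσ, sub_add_cancel]
  · intro i hi
    exact π3 i (by omega) fun h1 => by
      have h2 := (hmS i).1 h1
      omega
  · intro i x
    rcases cases3 i with rfl | hi | ⟨hi, hi'⟩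
    · rw [π1, sub_smul, one_smul, hσn, sub_zero]
    · have hi' := (hmS i).1 hi
      rw [π2 i hi, eact i hi'.1 hi'.2, if_pos rfl]
    · have h1 : 2 * n < i := by
        by_contra h2
        exact hi' ((hmS i).2 ⟨by omega, hi⟩)
      rw [T.H_top X i (by omega) x, smul_zero]
  · intro i j x hij
    rcases cases3 i with rfl | hi | ⟨hi, hi'⟩
    · rw [π1, sub_smul, one_smul, hσi j x hij, sub_self]
    · have hi' := (hmS i).1 hi
      rw [π2 i hi, eact i hi'.1 hi'.2, if_neg hij]
    · rw [π3 i hi hi', zero_smul]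
  · intro j hj
    rcases cases3 j with h1 | h1 | ⟨-, h1⟩
    · exact absurd h1 hj
    · have h2 := (hmS j).1 h1
      rw [π2 j h1]
      exact e4 j (by omega)
    · rw [π3 j hj h1]
      exact ⟨0, kills_zero _⟩

/-- a Chow-Kuenneth decomposition has no homogeneous phantoms -/
def HomNoPh (T : ChowTheory) : Prop :=
  ∀ (Y : T.V) (ρ : ℕ → End Y), IsCK T Y ρ → ∀ (a : ℕ) (e : End Y), e * e = e →
    HomTrivial (T := T) e → ρ a * e = e → e * ρ a = e → e = 0

/-- A homogeneous phantom can be moved to another degree, and then acts on the Chow groups of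
`X × X`. -/
theorem homogeneous_eq_zero {X : T.V} {π : ℕ → End X} (h : IsCK T X π) {m : ℕ}
    (hm : m ≤ 2 * T.dim (T.prod X X))
    (hyp : ∀ σ : ℕ → End (T.prod X X), IsCK T (T.prod X X) σ →
      ∀ z : T.CH (T.prod X X) (T.dim X), σ m • z = 0)
    {e : End X} (he : e * e = e) (hH : HomTrivial (T := T) e) {a : ℕ}
    (hl : π a * e = e) (hr : e * π a = e) : e = 0 := by
  by_cases ha : a ≤ 2 * T.dim X
  · have hσ := prodCK_isCK h h
    have key : ∀ b, b ≤ 2 * T.dim X → ∀ z : T.CH (T.prod X X) (T.dim X),
        T.ext X X e (π b) • z = 0 := by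
      intro b hb z
      obtain ⟨g1, g2⟩ := homog_ext h h hr hl b
      have gg : T.ext X X e (π b) * T.ext X X e (π b) = T.ext X X e (π b) := by
        rw [← T.ext_mul, he, h.idem]
      have gH : ∀ m (z : T.H (T.prod X X) m), T.ext X X e (π b) • z = 0 := by
        refine T.kun_span X X (fun m z => T.ext X X e (π b) • z = 0) ?_ ?_ ?_
        · intro m
          exact smul_zero _
        · intro m x y hx hy
          rw [smul_add, hx, hy, add_zero]
        · intro i j x y
          have h1 : e • x = 0 := hH i x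
          rw [T.kun_act, h1, T.kun_zero_left]
      by_cases hc : a + b = m
      · rw [hc] at g1
        rw [← g1, mul_smul, hyp _ hσ, smul_zero]
      · have hdim := T.dim_prod X X
        have h1 := move hσ (a := a + b) (b := m) hc (by omega) hm gg g2 g1 gH
        have h2 := hyp _ h1 z
        simp only [if_true] at h2
        rw [if_neg (Ne.symm hc), sub_zero, add_smul, hyp _ hσ, zero_add] at h2
        exact h2
    have h3 : ∀ b, b ∈ range (2 * T.dim X + 1) → π b * T.tr X e = 0 := by
      intro b hb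
      rw [mem_range] at hb
      have h4 := key b (by omega) (T.cyc X 1)
      rw [T.ext_cyc, mul_one] at h4
      exact (map_eq_zero_iff (T.cyc X) (T.cyc X).injective).1 h4
    have h5 : T.tr X e = 0 := by
      rw [← one_mul (T.tr X e), ← h.sum, sum_mul]
      exact sum_eq_zero h3
    rw [← T.tr_tr X e, h5, tr_zero]
  · rw [← hl, h.top a (by omega), zero_mul]

theorem homNoPh_of (hyp : ∀ X : T.V, 0 < T.dim X → ∃ m, m ≤ 2 * T.dim (T.prod X X) ∧
    ∀ σ : ℕ → End (T.prod X X), IsCK T (T.prod X X) σ →
      ∀ z : T.CH (T.prod X X) (T.dim X), σ m • z = 0) : HomNoPh T := by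
  intro Y ρ hρ a e he hH hl hr
  rcases Nat.eq_zero_or_pos (T.dim Y) with hd | hd
  · exact T.lowLaws.point Y hd e hH
  · obtain ⟨m, hm, h1⟩ := hyp Y hd
    exact homogeneous_eq_zero hρ hm h1 he hH hl hr

theorem homNoPh_of_zero (h : ForAllCK T fun _ π => ZeroVanishes T π) : HomNoPh T :=
  homNoPh_of fun X hX => ⟨0, Nat.zero_le _, fun σ hσ z => h _ σ hσ (T.dim X) hX z⟩

theorem homNoPh_of_top (h : ForAllCK T fun _ π => TopVanishes T π) : HomNoPh T :=
  homNoPh_of fun X hX => ⟨_, le_rfl, fun σ hσ z => h _ σ hσ (T.dim X) (by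
    rw [T.dim_prod]
    omega) z⟩

theorem homNoPh_of_noPhantoms (h : NoPhantoms T) : HomNoPh T := by
  intro Y ρ _ a e he hH _ _
  by_contra hne
  exact h Y e ⟨hne, he, hH⟩

theorem alt_eq_zero' (hP : HomNoPh T) {X : T.V} {π : ℕ → End X} (h : IsCK T X π) (j : ℕ) :
    alt X j (Module.finrank ℚ (T.H X j)) *
      extPow T.maps X (Module.finrank ℚ (T.H X j)) (fun _ => π j) = 0 := by
  obtain ⟨g1, g2⟩ := extPow_powCK h j (Module.finrank ℚ (T.H X j))
  refine alt_eq_zero (h.idem j) j (fun i x hi => h.act_ne j i x hi) fun e he hH hl hr => ?_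
  refine hP _ _ (powCK_isCK h _) (degPow j (Module.finrank ℚ (T.H X j))) e he hH ?_ ?_
  · rw [← hl, ← mul_assoc, g2]
  · rw [← hr, mul_assoc, g1]

/-- a variety with killed Kuenneth projectors in all degrees but the middle one -/
theorem good_of_projectors (hP : HomNoPh T) {X : T.V} (h : ∀ j, j ≤ 2 * T.dim X → j ≠ T.dim X →
      ∃ a : End X, IsProj X j a ∧ ∃ k, Kills (fun a : End X => HomTrivial (T := T) a) a k) :
    NilAt X ∧ ∃ π : ℕ → End X, IsCK T X π := by
  obtain ⟨π, hπ, h1⟩ := ck_of_projectors h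
  refine ⟨?_, π, hπ⟩
  obtain ⟨k, hk⟩ := kills_sum' (isTwo (T := T) X) (range (2 * T.dim X + 1)) π fun j _ => by
    by_cases hj : j = T.dim X
    · exact ⟨_, kills_of_alt (hπ.idem j) (alt_eq_zero' hP hπ j)⟩
    · exact h1 j hj
  rw [hπ.sum] at hk
  exact ⟨k, hk⟩

/-- the induction on the dimension -/
theorem good_variety (hP : HomNoPh T) (d : ℕ) :
    ∀ X : T.V, T.dim X = d → NilAt X ∧ ∃ π : ℕ → End X, IsCK T X π := by
  induction d with
  | zero =>
    intro X hX
    refine good_of_projectors hP fun j h1 h2 => ?_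
    omega
  | succ d ih =>
    intro X hX
    obtain ⟨Y, f, hf⟩ := T.lefLaws.exists_hyp X (by omega)
    have hY := T.lefLaws.dim_hyp f hf
    obtain ⟨hN, ρ, hρ⟩ := ih Y (by omega)
    have low : ∀ j, j < T.dim X → ∃ a : End X, IsProj X j a ∧
        ∃ k, Kills (fun a : End X => HomTrivial (T := T) a) a k := by
      intro j hj
      obtain ⟨g, hg⟩ := proj_of_injective f (isProj_of_isCK hρ j) (T.lefLaws.inj f hf j hj)
      obtain ⟨k, hk⟩ := kills_of_nilAt hN (ρ j)
      exact ⟨_, hg, k, kills_comp hk f g _ rfl⟩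
    refine good_of_projectors hP fun j h1 h2 => ?_
    rcases lt_or_gt_of_ne h2 with h2 | h2
    · exact low j h2
    · obtain ⟨a, ha, k, hk⟩ := low (2 * T.dim X - j) (by omega)
      refine ⟨T.tr X a, ?_, k, kills_tr hk⟩
      have h3 := isProj_tr (by omega) ha
      have h4 : 2 * T.dim X - (2 * T.dim X - j) = j := by omega
      rwa [h4] at h3

/-- a lift of the projection to degree 0 that factors through a point -/
theorem exists_zero (d : ℕ) : ∀ X : T.V, T.dim X = d → ∃ p : End X, IsProj X 0 p ∧
    (∃ k, Kills (fun a : End X => HomTrivial (T := T) a) p k) ∧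
    ∀ i, 0 < i → ∀ z : T.CH X i, p • z = 0 := by
  induction d with
  | zero =>
    intro X hX
    refine ⟨1, ⟨fun x => one_smul _ x, fun i x hi => ?_⟩, ⟨1, ?_⟩, fun i hi z => ?_⟩
    · rw [T.H_top X i (by omega) x, smul_zero]
    · intro l hl hlen
      cases l with
      | nil =>
        rw [List.length_nil] at hlen
        omega
      | cons a l =>
        have h1 : a = 0 := T.lowLaws.point X hX a (hl a (by simp))
        rw [List.map_cons, List.prod_cons, h1, zero_mul, zero_mul, mul_zero]
    · rw [T.chLaws.top X i (by omega) z, smul_zero]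
  | succ d ih =>
    intro X hX
    obtain ⟨Y, f, hf⟩ := T.lefLaws.exists_hyp X (by omega)
    have hY := T.lefLaws.dim_hyp f hf
    obtain ⟨p, hp, ⟨k, hk⟩, h0⟩ := ih Y (by omega)
    obtain ⟨g, hg⟩ := proj_of_injective f hp (T.lefLaws.inj f hf 0 (by omega))
    refine ⟨_, hg, ⟨k, kills_comp hk f g _ rfl⟩, fun i hi z => ?_⟩
    have h1 : ∀ y : T.CH Y i, T.ch p i y = 0 := fun y => h0 i hi y
    have h2 : T.ch (f ≫ p ≫ g) i z = 0 := by
      rw [T.chLaws.comp, T.chLaws.comp, h1]
      exact map_zero (T.chMap g i)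
    exact h2

/-- A Chow-Kuenneth decomposition can be changed so that `π^0` acts as zero on `CH^i(X)`, `i > 0`. -/
theorem exists_zeroVanishes {X : T.V} {π : ℕ → End X} (h : IsCK T X π) :
    ∃ ρ : ℕ → End X, IsCK T X ρ ∧ ZeroVanishes T ρ := by
  rcases Nat.eq_zero_or_pos (T.dim X) with hd | hd
  · refine ⟨π, h, fun i hi z => ?_⟩
    rw [T.chLaws.top X i (by omega) z]
    exact map_zero (T.chMap (π 0) i)
  · obtain ⟨q, hq, ⟨k, hk⟩, hq0⟩ := exists_zero _ X rfl
    have hN := isTwo (T := T) X
    set s := π 0 * q * π 0 with hs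
    have hk' : Kills (fun a : End X => HomTrivial (T := T) a) s k := kills_mul hN hk _ _
    have hsp : IsProj X 0 s := by
      constructor
      · intro x
        rw [hs, mul_smul, mul_smul, h.sact, hq.1, h.sact]
      · intro i x hi
        rw [hs, mul_smul, h.sact_ne 0 i x hi, smul_zero]
    obtain ⟨e, f1, f2, -, b, f4, f5⟩ := lift_idem hN hk' (by
      intro i x
      have h1 : (s - s ^ 2) • x = 0 := by
        have e0 : (s * s) • x = s • (s • x) := mul_smul s s x
        rw [sub_smul, sq, e0]
        by_cases hi : i = 0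
        · subst hi
          rw [hsp.1, hsp.1, sub_self]
        · rw [hsp.2 i x hi, smul_zero, sub_self]
      exact h1)
    have hes : ∀ i (x : T.H X i), e • x = s • x := by
      intro i x
      have h1 : (e - s) • x = 0 := f2 i x
      rwa [sub_smul, sub_eq_zero] at h1
    have el : π 0 * e = e := by
      rw [f4, hs]
      simp only [← mul_assoc]
      rw [h.idem]
    have er : e * π 0 = e := by
      rw [f5, hs]
      simp only [mul_assoc]
      rw [h.idem]
    have hm := move h (g := π 0 - e) (a := 0) (b := 1) (by omega) (by omega) (by omega)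
      (by rw [mul_sub, sub_mul, sub_mul, h.idem, el, er, f1, sub_self, sub_zero])
      (by rw [mul_sub, h.idem, el]) (by rw [sub_mul, h.idem, er])
      (by
        intro j x
        rw [sub_smul, hes]
        by_cases hj : j = 0
        · subst hj
          rw [h.sact, hsp.1, sub_self]
        · rw [h.sact_ne 0 j x hj, hsp.2 j x hj, sub_self])
    refine ⟨_, hm, fun i hi z => ?_⟩
    have h1 : (π 0 + (if (0 : ℕ) = 1 then π 0 - e else 0) - (if (0 : ℕ) = 0 then π 0 - e else 0))
        = e := by
      rw [if_neg (by omega), if_pos rfl, add_zero, sub_sub_cancel]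
    have h2 : e • z = 0 := by
      rw [f5, hs, mul_smul, mul_smul, mul_smul, hq0 i hi, smul_zero, smul_zero]
    show (π 0 + (if (0 : ℕ) = 1 then π 0 - e else 0) - (if (0 : ℕ) = 0 then π 0 - e else 0)) • z = 0
    rw [h1, h2]

end induction

section murre

variable {T : ChowTheory}

/-- a Kuenneth projector acts as zero on a Chow group if some lift of it does -/
theorem vanish_of {X : T.V} (hN : ∀ a : End X, HomTrivial (T := T) a → IsNilpotent a) {j i : ℕ}
    {p q : End X} (hp : p * p = p) (h : IsProj X j p) (h' : IsProj X j q)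
    (hq : ∀ z : T.CH X i, q • z = 0) (z : T.CH X i) : p • z = 0 := by
  obtain ⟨k, hk⟩ := hN (p - q) (homTrivial_sub_of_isProj h h')
  have h1 : (p - q) • (p • z) = p • z := by
    rw [sub_smul, smul_smul, hp, hq, sub_zero]
  have h2 : ∀ m : ℕ, (p - q) ^ m • (p • z) = p • z := by
    intro m
    induction m with
    | zero => rw [pow_zero, one_smul]
    | succ m ih => rw [pow_succ, mul_smul, h1, ih]
  rw [← h2 k, hk, zero_smul]

/-- The induction on the dimension for the vanishing of the action of `π^j` on `CH^i(X)`, for all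
`(i, j)` in a region `W (dim X)`. -/
theorem vanish_induction (hN : ∀ (X : T.V) (a : End X), HomTrivial (T := T) a → IsNilpotent a)
    (hC : ∀ X : T.V, ∃ π : ℕ → End X, IsCK T X π) (W : ℕ → ℕ → ℕ → Prop)
    (w1 : ∀ d i j, j < d + 1 → W (d + 1) i j → W d i j)
    (w2 : ∀ d i j, d + 1 < j → j ≤ 2 * (d + 1) → W (d + 1) (i + 1) j → W d i (j - 2))
    (w3 : ∀ (X : T.V) (π : ℕ → End X), IsCK T X π →
      (∀ Y : T.V, T.dim Y + 1 = T.dim X → ∀ ρ : ℕ → End Y, IsCK T Y ρ → ∀ i j, W (T.dim Y) i j →
        ∀ z : T.CH Y i, ρ j • z = 0) →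
      ∀ i, W (T.dim X) i (T.dim X) → ∀ z : T.CH X i, π (T.dim X) • z = 0) (d : ℕ) :
    ∀ X : T.V, T.dim X = d → ∀ π : ℕ → End X, IsCK T X π → ∀ i j, W d i j →
      ∀ z : T.CH X i, π j • z = 0 := by
  induction d with
  | zero =>
    intro X hX π hπ i j hij z
    rcases Nat.eq_zero_or_pos j with hj | hj
    · have h1 := w3 X π hπ (fun Y hY => by omega) i (by rw [hX]; rw [hj] at hij; exact hij) z
      rw [hX, ← hj] at h1
      exact h1
    · rw [hπ.top j (by omega), zero_smul]
  | succ d ih =>
    intro X hX π hπ i j hij z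
    obtain ⟨Y, f, hf⟩ := T.lefLaws.exists_hyp X (by omega)
    have hY := T.lefLaws.dim_hyp f hf
    obtain ⟨ρ, hρ⟩ := hC Y
    have hYd : T.dim Y = d := by omega
    rcases lt_trichotomy j (T.dim X) with hj | hj | hj
    · obtain ⟨g, hg⟩ := proj_of_injective f (isProj_of_isCK hρ j) (T.lefLaws.inj f hf j hj)
      refine vanish_of (hN X) (hπ.idem j) (isProj_of_isCK hπ j) hg (fun z => ?_) z
      have h1 : ∀ y : T.CH Y i, T.ch (ρ j) i y = 0 := fun y =>
        ih Y hYd ρ hρ i j (w1 d i j (by omega) hij) y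
      have h2 : T.ch (f ≫ ρ j ≫ g) i z = 0 := by
        rw [T.chLaws.comp, T.chLaws.comp, h1]
        exact map_zero (T.chMap g i)
      exact h2
    · have h1 := w3 X π hπ (fun Y' hY' ρ' hρ' i' j' h' z' =>
        ih Y' (by omega) ρ' hρ' i' j' (by
          have h4 : T.dim Y' = d := by omega
          rwa [h4] at h') z') i (by
            rw [hX]
            rw [hj, hX] at hij
            exact hij) z
      rw [← hj] at h1
      exact h1
    · by_cases hj2 : 2 * T.dim X < j
      · rw [hπ.top j hj2, zero_smul]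
      · obtain ⟨g, hg⟩ := proj_of_injective f (isProj_of_isCK hρ (2 * T.dim X - j))
          (T.lefLaws.inj f hf _ (by omega))
        have hg' := isProj_tr (by omega) hg
        have h4 : 2 * T.dim X - (2 * T.dim X - j) = j := by omega
        rw [h4] at hg'
        refine vanish_of (hN X) (hπ.idem j) (isProj_of_isCK hπ j) hg' (fun z => ?_) z
        rcases Nat.eq_zero_or_pos i with hi | hi
        · subst hi
          have h2 := T.trFactor.zero f (ρ (2 * T.dim X - j) ≫ g) z hY
          exact h2
        · obtain ⟨i, rfl⟩ : ∃ i', i = i' + 1 := ⟨i - 1, by omega⟩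
          have h2 := T.trFactor.succ f (ρ (2 * T.dim X - j)) g i z hY
          have h3 : ∀ y : T.CH Y i, T.ch (T.tr Y (ρ (2 * T.dim X - j))) i y = 0 := by
            intro y
            have h5 := ih Y hYd _ (dualCK_isCK hρ) i (j - 2)
              (w2 d i j (by omega) (by omega) hij) y
            unfold dualCK at h5
            rw [if_pos (by omega)] at h5
            have h6 : 2 * T.dim Y - (j - 2) = 2 * T.dim X - j := by omega
            rw [h6] at h5
            exact h5
          have h7 : T.ch (T.tr X (f ≫ ρ (2 * T.dim X - j) ≫ g)) (i + 1) z = 0 := by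
            rw [h2, h3]
            exact map_zero (T.maps.push f i)
          exact h7

/-- the second half -/
theorem secondHalf_all (hN : ∀ (X : T.V) (a : End X), HomTrivial (T := T) a → IsNilpotent a)
    (hC : ∀ X : T.V, ∃ π : ℕ → End X, IsCK T X π) : ForAllCK T fun _ ρ => SecondHalf T ρ := by
  intro X ρ hρ i
  refine F1_eq_zero fun m z hm => ?_
  refine vanish_induction hN hC (fun _ i j => j < i) (fun d i j _ h => h)
    (fun d i j h1 h2 h3 => by
      show j - 2 < i
      have h3' : j < i + 1 := h3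
      omega)
    (fun X π hπ _ i hi z => ?_) _ X rfl ρ hρ i m hm z
  have hi' : T.dim X < i := hi
  rw [T.chLaws.top X i hi' z, smul_zero]

/-- the top projector -/
theorem topVanishes_all (hN : ∀ (X : T.V) (a : End X), HomTrivial (T := T) a → IsNilpotent a)
    (hC : ∀ X : T.V, ∃ π : ℕ → End X, IsCK T X π) : ForAllCK T fun _ ρ => TopVanishes T ρ := by
  intro X ρ hρ i hi z
  refine vanish_induction hN hC (fun d i j => j = 2 * d ∧ i < d)
    (fun d i j h1 h2 => by
      have h3 : j = 2 * (d + 1) ∧ i < d + 1 := h2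
      omega)
    (fun d i j h1 h2 h3 => by
      have h4 : j = 2 * (d + 1) ∧ i + 1 < d + 1 := h3
      show j - 2 = 2 * d ∧ i < d
      omega)
    (fun X π hπ _ i hi z => ?_) _ X rfl ρ hρ i _ ⟨rfl, hi⟩ z
  have hi' : T.dim X = 2 * T.dim X ∧ i < T.dim X := hi
  omega

/-- low codimension -/
theorem low_vanish {X : T.V} {π : ℕ → End X} (h : IsCK T X π) {i : ℕ} (hi : i ≤ 1)
    (hi' : 2 * i < T.dim X) (z : T.CH X i) : π (T.dim X) • z = 0 :=
  T.lowLaws.low X (π (T.dim X)) i hi (h.idem _)
    (fun j hj x => h.act_ne (T.dim X) j x (by omega)) z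

/-- Q1, given the vanishing in the middle degree -/
theorem murre_all (hN : ∀ (X : T.V) (a : End X), HomTrivial (T := T) a → IsNilpotent a)
    (hC : ∀ X : T.V, ∃ π : ℕ → End X, IsCK T X π)
    (hM : ∀ (X : T.V) (π : ℕ → End X), IsCK T X π →
      (∀ Y : T.V, T.dim Y + 1 = T.dim X → ∀ ρ : ℕ → End Y, IsCK T Y ρ → ∀ i j, 2 * i < j →
        ∀ z : T.CH Y i, ρ j • z = 0) → ∀ i, 2 ≤ i → 2 * i < T.dim X → ∀ z : T.CH X i,
          π (T.dim X) • z = 0) :
    ForAllCK T fun _ ρ => Murre T ρ := by
  have h2 := secondHalf_all hN hC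
  intro X ρ hρ i
  refine ⟨F0_eq_univ hρ fun m z hm => ?_, h2 X ρ hρ i⟩
  refine vanish_induction hN hC (fun _ i j => 2 * i < j) (fun d i j _ h => h)
    (fun d i j h1 h2 h3 => by
      show 2 * i < j - 2
      have h3' : 2 * (i + 1) < j := h3
      omega)
    (fun X π hπ hY i hi z => ?_) _ X rfl ρ hρ i m hm z
  have hi' : 2 * i < T.dim X := hi
  by_cases h1 : i ≤ 1
  · exact low_vanish hπ h1 hi' z
  · exact hM X π hπ hY i (by omega) hi' z

/-- the first half for all decompositions implies the vanishing for the top projector -/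
theorem top_of_first (h : ForAllCK T fun _ ρ => FirstHalf T ρ) :
    ForAllCK T fun _ π => TopVanishes T π := by
  intro X π hπ i hi z
  exact smul_eq_zero_of_F0 hπ (h X π hπ i) (by omega) z

theorem isUnit_conj {X : T.V} (hN : ∀ a : End X, HomTrivial (T := T) a → IsNilpotent a)
    {π ρ : ℕ → End X} (h : IsCK T X π) (h' : IsCK T X ρ) : ConjTo π ρ := by
  set u : End X := ∑ m ∈ range (2 * T.dim X + 1), ρ m * π m with hu
  have h1 : ∀ m, ρ m * u = ρ m * π m := by
    intro m
    rw [hu, mul_sum]
    by_cases hm : m ≤ 2 * T.dim X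
    · rw [sum_eq_single m]
      · rw [← mul_assoc, h'.idem]
      · intro j _ hj
        rw [← mul_assoc, h'.orth _ _ (Ne.symm hj), zero_mul]
      · intro h2
        exact absurd (mem_range.2 (by omega)) h2
    · rw [h'.top m (by omega), zero_mul, sum_eq_zero fun j _ => zero_mul _]
  have h2 : ∀ m, u * π m = ρ m * π m := by
    intro m
    rw [hu, sum_mul]
    by_cases hm : m ≤ 2 * T.dim X
    · rw [sum_eq_single m]
      · rw [mul_assoc, h.idem]
      · intro j _ hj
        rw [mul_assoc, h.orth _ _ hj, mul_zero]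
      · intro h2
        exact absurd (mem_range.2 (by omega)) h2
    · rw [h.top m (by omega), mul_zero, sum_eq_zero fun j _ => mul_zero _]
  have h3 : ∀ i (x : T.H X i), u • x = x := by
    intro i x
    by_cases hi : i ≤ 2 * T.dim X
    · rw [hu, sum_smul', sum_eq_single i]
      · rw [mul_smul, h.sact, h'.sact]
      · intro j _ hj
        rw [mul_smul, h.sact_ne j i x (Ne.symm hj), smul_zero]
      · intro h4
        exact absurd (mem_range.2 (by omega)) h4
    · rw [T.H_top X i (by omega) x, smul_zero]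
  have h4 : IsNilpotent (u - 1) := hN _ fun i x => by
    have h5 : (u - 1) • x = 0 := by rw [sub_smul, h3, one_smul, sub_self]
    exact h5
  have h5 := h4.isUnit_one_add
  rw [add_sub_cancel] at h5
  obtain ⟨v, hv⟩ := h5
  refine ⟨v, fun m => ?_⟩
  have h6 : ρ m * v = v * π m := by rw [hv, h1, h2]
  rw [← h6, mul_assoc, Units.mul_inv, mul_one]

end murre

section final

variable {T : ChowTheory}

theorem prod_eq_zero_of_kills {X : T.V} {k : ℕ}
    (h : Kills (fun a : End X => HomTrivial (T := T) a) (1 : End X) k) (l : List (End X))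
    (hl : ∀ a ∈ l, HomTrivial (T := T) a) (hlen : k ≤ l.length) : l.prod = 0 := by
  have h1 : (l.map (fun a => a * (1 : End X))) = l := by
    simp
  have h2 := h l hl hlen
  rwa [h1, one_mul] at h2

theorem nilEnd_of_good (h : ∀ X : T.V, NilAt X ∧ ∃ π : ℕ → End X, IsCK T X π) : NilEnd T :=
  fun X _ ha => isNilpotent_of_nilAt (h X).1 ha

theorem noPhantoms_of_nil (h : NilEnd T) : NoPhantoms T := by
  rintro X e ⟨hne, he, hH⟩
  obtain ⟨k, hk⟩ := h X e hH
  have h1 : ∀ m, e ^ (m + 1) = e := by
    intro m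
    induction m with
    | zero => rw [zero_add, pow_one]
    | succ m ih => rw [pow_succ, ih, he]
  exact hne (by rw [← h1 k, pow_succ, hk, zero_mul])

theorem smul_zero_of_conj {X : T.V} {π ρ : ℕ → End X} (h : ConjTo π ρ) {i m : ℕ}
    (h0 : ∀ z : T.CH X i, π m • z = 0) (z : T.CH X i) : ρ m • z = 0 := by
  obtain ⟨u, hu⟩ := h
  rw [hu, mul_smul, mul_smul, h0, smul_zero]

theorem ConjTo.symm {X : T.V} {π ρ : ℕ → End X} (h : ConjTo π ρ) : ConjTo ρ π := by
  obtain ⟨u, hu⟩ := h
  refine ⟨u⁻¹, fun m => ?_⟩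
  rw [hu, inv_inv]
  simp only [← mul_assoc, Units.inv_mul, one_mul]
  rw [mul_assoc, Units.inv_mul, mul_one]

/-- The equivalences for the second half. -/
theorem secondHalf_tfae (T : ChowTheory) : List.TFAE [
    ForAllCK T fun _ π => SecondHalf T π,
    ForAllCK T fun _ π => ZeroVanishes T π,
    ForAllCK T fun _ π => TopVanishes T π,
    NoPhantoms T,
    ExistsCK T fun _ π => ∀ j, FiniteDim π j,
    NilIdeals T,
    NilEnd T,
    ExistsCK T fun X π => ∀ ρ : ℕ → End X, IsCK T X ρ → ConjTo π ρ] := by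
  tfae_have 1 → 2 := fun h X π hπ i hi z => smul_eq_zero_of_F1 hπ (h X π hπ i) hi z
  tfae_have 2 → 7 := fun h => nilEnd_of_good fun X => good_variety (homNoPh_of_zero h) _ X rfl
  tfae_have 3 → 7 := fun h => nilEnd_of_good fun X => good_variety (homNoPh_of_top h) _ X rfl
  tfae_have 7 → 4 := noPhantoms_of_nil
  tfae_have 4 → 5 := by
    intro h X
    obtain ⟨π, hπ⟩ := (good_variety (homNoPh_of_noPhantoms h) _ X rfl).2
    exact ⟨π, hπ, alt_eq_zero' (homNoPh_of_noPhantoms h) hπ⟩
  tfae_have 5 → 6 := by
    intro h X l hl hlen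
    obtain ⟨π, hπ, h1⟩ := h X
    have h2 := kills_sum (isTwo (T := T) X) (range (2 * T.dim X + 1)) π _ fun j _ =>
      kills_of_alt (hπ.idem j) (h1 j)
    rw [hπ.sum] at h2
    exact prod_eq_zero_of_kills h2 l hl hlen
  tfae_have 6 → 7 := by
    intro h X a ha
    refine ⟨bound X, ?_⟩
    have h1 := h X (List.replicate (bound X) a) (fun b hb => by
      rw [List.eq_of_mem_replicate hb]
      exact ha) (by rw [List.length_replicate])
    rwa [List.prod_replicate] at h1
  tfae_have 4 → 1 := by
    intro h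
    have hg := fun X : T.V => good_variety (homNoPh_of_noPhantoms h) _ X rfl
    exact secondHalf_all (nilEnd_of_good hg) fun X => (hg X).2
  tfae_have 4 → 3 := by
    intro h
    have hg := fun X : T.V => good_variety (homNoPh_of_noPhantoms h) _ X rfl
    exact topVanishes_all (nilEnd_of_good hg) fun X => (hg X).2
  tfae_have 4 → 8 := by
    intro h X
    have hg := fun X : T.V => good_variety (homNoPh_of_noPhantoms h) _ X rfl
    obtain ⟨π, hπ⟩ := (hg X).2
    exact ⟨π, hπ, fun ρ hρ => isUnit_conj (nilEnd_of_good hg X) hπ hρ⟩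
  tfae_have 8 → 2 := by
    intro h X ρ hρ i hi z
    obtain ⟨π, hπ, h1⟩ := h X
    obtain ⟨σ, hσ, h0⟩ := exists_zeroVanishes hπ
    exact smul_zero_of_conj (h1 ρ hρ) (smul_zero_of_conj (h1 σ hσ).symm (h0 i hi)) z
  tfae_finish

theorem chowLefschetz_of_murre (hN : NilEnd T) (hC : ∀ X : T.V, ∃ π : ℕ → End X, IsCK T X π)
    (h : ForAllCK T fun _ ρ => Murre T ρ) : ChowLefschetz T := by
  intro X Y f hf i _ hi
  have hY := T.lefLaws.dim_hyp f hf
  obtain ⟨π, hπ⟩ := hC X
  set P : End X := ∑ j ∈ range (2 * i + 1), π j with hP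
  have hPz : ∀ z : T.CH X i, P • z = z := by
    intro z
    have h1 : (∑ j ∈ range (2 * i + 1), π j) • z = (∑ j ∈ range (2 * T.dim X + 1), π j) • z := by
      rw [sum_smul, sum_smul]
      refine sum_subset (range_subset_range.2 (by omega)) fun m _ hm => ?_
      rw [mem_range] at hm
      exact smul_eq_zero_of_F0 hπ (h X π hπ i).1 (by omega) z
    rw [hP, h1, hπ.sum, one_smul]
  have hPx : ∀ j (x : T.H X j), P • x = if j ≤ 2 * i then x else 0 := by
    intro j x
    rw [hP, sum_smul']
    split_ifs with hj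
    · rw [sum_eq_single j]
      · exact hπ.sact j x
      · intro m _ hm
        exact hπ.sact_ne m j x (Ne.symm hm)
      · intro h1
        exact absurd (mem_range.2 (by omega)) h1
    · refine sum_eq_zero fun m hm => ?_
      rw [mem_range] at hm
      exact hπ.sact_ne m j x (by omega)
  obtain ⟨g, hg⟩ := regular f
  have hg' : ∀ j, j ≤ 2 * i → ∀ x : T.H X j, T.ho g j (T.ho f j x) = x := by
    intro j hj x
    have h1 := hg j x
    rw [ho_sub, sub_eq_zero, T.hLaws.comp, T.hLaws.comp] at h1
    exact T.lefLaws.inj f hf j (by omega) h1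
  set ν : End X := (P ≫ f ≫ g ≫ P : X ⟶ X) - (P ≫ P : X ⟶ X) with hν
  have hνH : HomTrivial (T := T) (X := X) (Y := X) ν := by
    intro j x
    rw [hν, ho_sub]
    simp only [T.hLaws.comp]
    have h1 : ∀ y : T.H X j, T.ho P j y = if j ≤ 2 * i then y else 0 := hPx j
    by_cases hj : j ≤ 2 * i
    · have e1 : ∀ y : T.H X j, T.ho P j y = y := fun y => by rw [h1, if_pos hj]
      simp only [e1]
      rw [hg' j hj, sub_self]
    · have e1 : ∀ y : T.H X j, T.ho P j y = 0 := fun y => by rw [h1, if_neg hj]
      simp only [e1, sub_zero]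
  obtain ⟨k, hk⟩ := hN X ν hνH
  have hker : ∀ z : T.CH X i, T.ch f i z = 0 → z = 0 := by
    intro z hz
    have h1 : ∀ y : T.CH X i, T.ch P i y = y := hPz
    have h2 : T.ch ν i z = -z := by
      have h3 := T.chLaws.add ν (P ≫ P) i z
      rw [hν, sub_add_cancel] at h3
      simp only [T.chLaws.comp, h1, hz] at h3
      have h4 : T.ch g i 0 = 0 := map_zero (T.chMap g i)
      rw [h4] at h3
      rw [hν]
      exact (neg_eq_of_add_eq_zero_left h3.symm).symm
    have h3 : ∀ m : ℕ, ν ^ m • z = (-1 : ℤ) ^ m • z := by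
      intro m
      induction m with
      | zero => rw [pow_zero, pow_zero, one_smul, one_smul]
      | succ m ih =>
        have h2' : ν • z = -z := h2
        rw [pow_succ, mul_smul, h2', smul_neg, ih, pow_succ, mul_neg_one, neg_smul]
    have h4 := h3 k
    rw [hk, zero_smul] at h4
    rcases Int.isUnit_iff.1 ((isUnit_one.neg : IsUnit (-1 : ℤ)).pow k) with h5 | h5
    · rw [h5, one_smul] at h4
      exact h4.symm
    · rw [h5, neg_smul, one_smul] at h4
      exact neg_eq_zero.1 h4.symm
  intro z z' hzz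
  rw [← sub_eq_zero]
  refine hker _ ?_
  have h1 : T.ch f i (z - z') = T.ch f i z - T.ch f i z' := map_sub (T.chMap f i) z z'
  rw [h1, sub_eq_zero]
  exact hzz

theorem middle_of_chowLefschetz (hN : NilEnd T) (hC : ∀ X : T.V, ∃ π : ℕ → End X, IsCK T X π)
    (hL : ChowLefschetz T) {X : T.V} {π : ℕ → End X} (hπ : IsCK T X π)
    (hY : ∀ Y : T.V, T.dim Y + 1 = T.dim X → ∀ ρ : ℕ → End Y, IsCK T Y ρ → ∀ i j, 2 * i < j →
        ∀ z : T.CH Y i, ρ j • z = 0) {i : ℕ} (hi : 2 ≤ i) (hi' : 2 * i + 1 < T.dim X)
    (z : T.CH X i) : π (T.dim X) • z = 0 := by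
  obtain ⟨Y, f, hf⟩ := T.lefLaws.exists_hyp X (by omega)
  have hYd := T.lefLaws.dim_hyp f hf
  obtain ⟨ρ, hρ⟩ := hC Y
  set P : End X := ∑ j ∈ range (2 * i + 1), π j with hP
  set R : End Y := ∑ j ∈ range (2 * i + 1), ρ j with hR
  have hRz : ∀ y : T.CH Y i, R • y = y := by
    intro y
    have h1 : (∑ j ∈ range (2 * i + 1), ρ j) • y = (∑ j ∈ range (2 * T.dim Y + 1), ρ j) • y := by
      rw [sum_smul, sum_smul]
      refine sum_subset (range_subset_range.2 (by omega)) fun m _ hm => ?_
      rw [mem_range] at hm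
      exact hY Y hYd ρ hρ i m (by omega) y
    rw [hR, h1, hρ.sum, one_smul]
  have hPx : ∀ j (x : T.H X j), T.ho P j x = if j ≤ 2 * i then x else 0 := by
    intro j x
    rw [ho_def, hP, sum_smul']
    split_ifs with hj
    · rw [sum_eq_single j]
      · exact hπ.sact j x
      · intro m _ hm
        exact hπ.sact_ne m j x (Ne.symm hm)
      · intro h1
        exact absurd (mem_range.2 (by omega)) h1
    · refine sum_eq_zero fun m hm => ?_
      rw [mem_range] at hm
      exact hπ.sact_ne m j x (by omega)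
  have hRx : ∀ j (x : T.H Y j), T.ho R j x = if j ≤ 2 * i then x else 0 := by
    intro j x
    rw [ho_def, hR, sum_smul']
    split_ifs with hj
    · rw [sum_eq_single j]
      · exact hρ.sact j x
      · intro m _ hm
        exact hρ.sact_ne m j x (Ne.symm hm)
      · intro h1
        exact absurd (mem_range.2 (by omega)) h1
    · refine sum_eq_zero fun m hm => ?_
      rw [mem_range] at hm
      exact hρ.sact_ne m j x (by omega)
  have hPn : π (T.dim X) * P = 0 := by
    rw [hP, mul_sum]
    refine sum_eq_zero fun m hm => ?_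
    rw [mem_range] at hm
    exact hπ.orth _ _ (by omega)
  obtain ⟨g, hg⟩ := regular f
  have hg' : ∀ j, j ≤ 2 * i → ∀ y : T.H Y j, T.ho f j (T.ho g j y) = y := by
    intro j hj y
    obtain ⟨x, rfl⟩ := T.lefLaws.surj f hf j (by omega) y
    have h1 := hg j x
    rw [ho_sub, sub_eq_zero, T.hLaws.comp, T.hLaws.comp] at h1
    exact h1
  set ν : End Y := (R ≫ g ≫ P ≫ f ≫ R : Y ⟶ Y) - (R ≫ R : Y ⟶ Y) with hν
  have hνH : HomTrivial (T := T) (X := Y) (Y := Y) ν := by
    intro j x
    rw [hν, ho_sub]
    simp only [T.hLaws.comp]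
    by_cases hj : j ≤ 2 * i
    · simp only [hRx, hPx, if_pos hj]
      rw [hg' j hj, sub_self]
    · simp only [hRx, hPx, if_neg hj, ho_map_zero, sub_zero]
  have hu := (hN Y ν hνH).isUnit_one_add
  obtain ⟨u, hu⟩ := hu
  -- solve for the class on `X`
  set w := π (T.dim X) • z with hw
  set y : T.CH Y i := ((u⁻¹ : (End Y)ˣ) : End Y) • T.ch f i w with hy
  have h1 : (1 + ν) • y = T.ch f i w := by
    rw [hy, ← hu, smul_smul, Units.mul_inv, one_smul]
  have hR' : ∀ y : T.CH Y i, T.ch R i y = y := hRz
  have h2 : T.ch f i (T.ch P i (T.ch g i y)) = T.ch f i w := by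
    rw [← h1, add_smul, one_smul]
    have h3 := T.chLaws.add ν (R ≫ R) i y
    rw [hν, sub_add_cancel] at h3
    simp only [T.chLaws.comp] at h3
    rw [hR' y, hR' y, hR'] at h3
    rw [h3, add_comm]
    rfl
  have h3 := hL f hf i hi (by omega) h2
  have h4 : π (T.dim X) • w = w := by
    rw [hw, smul_smul, hπ.idem]
  have h5 : π (T.dim X) • (P • T.ch g i y) = 0 := by
    rw [smul_smul, hPn, zero_smul]
  have h6 : P • T.ch g i y = w := h3
  rw [h6, h4] at h5
  exact h5

end final

end Pool.Agent.H72.CKTheory
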